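import Mathlib
import Pool.Agent.H715R2.CountableValues

/-! # One-parameter flows on products of linear forms: limit sets, minimal sets, recurrence -/

set_option autoImplicit false

open Filter Topology Matrix H715R2

namespace Pool.Agent.Zk73.OP

variable {d : ℕ}

/-- the one-parameter group -/
noncomputable def fl (θ : Fin d → ℝ) (s : ℝ) : Fin d → ℝ := fun k => Real.exp (-(s * θ k))

lemma fl_pos (θ : Fin d → ℝ) (s : ℝ) (k : Fin d) : 0 < fl θ s k := Real.exp_pos _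

lemma fl_prod {θ : Fin d → ℝ} (hθ : ∑ k, θ k = 0) (s : ℝ) : ∏ k, fl θ s k = 1 := by
  simp only [fl]
  rw [← Real.exp_sum, Finset.sum_neg_distrib, ← Finset.mul_sum, hθ, mul_zero, neg_zero,
    Real.exp_zero]

lemma fl_mul (θ : Fin d → ℝ) (s t : ℝ) :
    (diagonal (fl θ s) : Matrix (Fin d) (Fin d) ℝ) * diagonal (fl θ t) =
      diagonal (fl θ (s + t)) := by
  rw [diagonal_mul_diagonal]
  congr 1
  funext k
  simp only [fl]
  rw [← Real.exp_add]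
  congr 1
  ring

/-- invariance under the one-parameter group and `GL_d(ℤ)` -/
def Inv1 (θ : Fin d → ℝ) (Y : Set (Matrix (Fin d) (Fin d) ℝ)) : Prop :=
  ∀ h ∈ Y, ∀ (s : ℝ) (γ : Matrix (Fin d) (Fin d) ℤ), IsUnit γ.det →
    diagonal (fl θ s) * h * zR γ ∈ Y

/-- a bounded family has a point in a box -/
lemma closed_props {X : Set (Matrix (Fin d) (Fin d) ℝ)} {V ν : ℝ} (hdet : ∀ h ∈ X, |h.det| = V)
    (hnu : ∀ h ∈ X, HasNu h ν) : (∀ h ∈ closure X, |h.det| = V) ∧ ∀ h ∈ closure X, HasNu h ν := by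
  constructor
  · intro h hh
    have h1 : IsClosed {h : Matrix (Fin d) (Fin d) ℝ | |h.det| = V} :=
      isClosed_eq (continuous_abs.comp continuous_det') continuous_const
    exact closure_minimal (fun h hh => hdet h hh) h1 hh
  · intro h hh m hm
    have h1 : IsClosed {h : Matrix (Fin d) (Fin d) ℝ | ν ≤ |FF h (iR m)|} :=
      isClosed_le continuous_const (continuous_abs.comp (continuous_FF (iR m)))
    exact closure_minimal (fun h hh => hnu h hh m hm) h1 hh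

/-- limit sets -/
lemma limset (hd : 0 < d) {V ν : ℝ} (hV : 0 < V) (hν : 0 < ν) {θ : Fin d → ℝ}
    (P : ℕ → Set (Matrix (Fin d) (Fin d) ℝ)) (hanti : ∀ N N', N ≤ N' → P N' ⊆ P N)
    (hne : ∀ N, (P N).Nonempty)
    (hγ : ∀ N, ∀ h ∈ P N, ∀ γ : Matrix (Fin d) (Fin d) ℤ, IsUnit γ.det → h * zR γ ∈ P N)
    (hfl : ∀ s : ℝ, ∃ K : ℕ, ∀ N, ∀ h ∈ P (N + K), diagonal (fl θ s) * h ∈ P N)
    (hdet : ∀ h ∈ P 0, |h.det| = V) (hnu : ∀ h ∈ P 0, HasNu h ν) :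
    (⋂ N, closure (P N)).Nonempty ∧ IsClosed (⋂ N, closure (P N)) ∧
      Inv1 θ (⋂ N, closure (P N)) := by
  classical
  refine ⟨?_, isClosed_iInter fun _ => isClosed_closure, ?_⟩
  · obtain ⟨R, hR⟩ := exists_bound hd V ν hV hν
    have hstep : ∀ n : ℕ, ∃ x ∈ P n, ∀ i j, |x i j| ≤ R := by
      intro n
      obtain ⟨h, hh⟩ := hne n
      have hh0 := hanti 0 n (Nat.zero_le n) hh
      obtain ⟨γ, h1, h2⟩ := hR h (hdet h hh0) (hnu h hh0)
      exact ⟨_, hγ n h hh γ h1, h2⟩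
    choose x hx hxR using hstep
    obtain ⟨h, -, φ, hφ, hlim⟩ := (isCompact_box (d := d) R).tendsto_subseq hxR
    refine ⟨h, Set.mem_iInter.2 fun N => ?_⟩
    refine mem_closure_of_tendsto hlim ?_
    filter_upwards [eventually_ge_atTop N] with n hn
    exact hanti N (φ n) (hn.trans (hφ.le_apply)) (hx (φ n))
  · intro h hh s γ hγu
    rw [Set.mem_iInter]
    intro N
    obtain ⟨K, hK⟩ := hfl s
    have h1 : h ∈ closure (P (N + K)) := Set.mem_iInter.1 hh (N + K)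
    refine map_mem_closure (f := fun h : Matrix (Fin d) (Fin d) ℝ => diagonal (fl θ s) * h * zR γ)
      ?_ h1 ?_
    · exact (continuous_const.matrix_mul continuous_id).matrix_mul continuous_const
    · intro h' hh'
      exact hγ N _ (hK N h' hh') γ hγu

/-- minimal sets -/
theorem exists_minimal1 (hd : 0 < d) {V ν : ℝ} (hV : 0 < V) (hν : 0 < ν) {θ : Fin d → ℝ}
    {X : Set (Matrix (Fin d) (Fin d) ℝ)} (hXc : IsClosed X) (hXne : X.Nonempty)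
    (hXi : Inv1 θ X) (hdet : ∀ h ∈ X, |h.det| = V) (hnu : ∀ h ∈ X, HasNu h ν) :
    ∃ M ⊆ X, IsClosed M ∧ M.Nonempty ∧ Inv1 θ M ∧
      ∀ Y ⊆ M, IsClosed Y → Y.Nonempty → Inv1 θ Y → Y = M := by
  classical
  obtain ⟨R, hR⟩ := exists_bound hd V ν hV hν
  set 𝒦 : Set (Matrix (Fin d) (Fin d) ℝ) := {h | ∀ i j, |h i j| ≤ R} with h𝒦
  have hcpt : IsCompact 𝒦 := isCompact_box R
  have hmeet : ∀ Y : Set (Matrix (Fin d) (Fin d) ℝ), Y ⊆ X → Y.Nonempty → Inv1 θ Y →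
      (Y ∩ 𝒦).Nonempty := by
    intro Y hY ⟨h, hh⟩ hinv
    obtain ⟨γ, hγ, hγR⟩ := hR h (hdet h (hY hh)) (hnu h (hY hh))
    refine ⟨h * zR γ, ?_, hγR⟩
    have h1 := hinv h hh 0 γ hγ
    have h2 : (diagonal (fl θ 0) : Matrix (Fin d) (Fin d) ℝ) = 1 := by
      rw [← diagonal_one]
      congr 1
      funext k
      simp [fl]
    rwa [h2, Matrix.one_mul] at h1
  set S : Set (Set (Matrix (Fin d) (Fin d) ℝ)) :=
    {Y | Y ⊆ X ∧ IsClosed Y ∧ Y.Nonempty ∧ Inv1 θ Y} with hS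
  have hx : X ∈ S := ⟨subset_rfl, hXc, hXne, hXi⟩
  obtain ⟨M, hMx, hMin⟩ := zorn_superset_nonempty S (by
    intro c hcS hchain hcne
    refine ⟨⋂₀ c, ⟨?_, ?_, ?_, ?_⟩, fun s hs => Set.sInter_subset_of_mem hs⟩
    · obtain ⟨Y, hY⟩ := hcne
      exact (Set.sInter_subset_of_mem hY).trans (hcS hY).1
    · exact isClosed_sInter fun Y hY => (hcS hY).2.1
    · have : Nonempty c := ⟨⟨hcne.some, hcne.some_mem⟩⟩
      have h1 : (⋂ Y : c, (Y : Set (Matrix (Fin d) (Fin d) ℝ)) ∩ 𝒦).Nonempty := by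
        refine IsCompact.nonempty_iInter_of_directed_nonempty_isCompact_isClosed
          (fun Y : c => (Y : Set (Matrix (Fin d) (Fin d) ℝ)) ∩ 𝒦) ?_ ?_ ?_ ?_
        · intro Y Z
          rcases hchain.total Y.2 Z.2 with h | h
          · exact ⟨Y, subset_rfl, Set.inter_subset_inter_left _ h⟩
          · exact ⟨Z, Set.inter_subset_inter_left _ h, subset_rfl⟩
        · intro Y
          exact hmeet Y (hcS Y.2).1 (hcS Y.2).2.2.1 (hcS Y.2).2.2.2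
        · intro Y
          exact hcpt.inter_left (hcS Y.2).2.1
        · intro Y
          exact (hcS Y.2).2.1.inter hcpt.isClosed
      obtain ⟨h, hh⟩ := h1
      rw [Set.mem_iInter] at hh
      exact ⟨h, fun Y hY => (hh ⟨Y, hY⟩).1⟩
    · intro h hh s γ hγ Y hY
      exact (hcS hY).2.2.2 h (hh Y hY) s γ hγ) _ hx
  obtain ⟨hMS, hMmin⟩ := hMin
  refine ⟨M, hMS.1, hMS.2.1, hMS.2.2.1, hMS.2.2.2, fun Y hY hYc hYn hYi => ?_⟩
  exact subset_antisymm hY (hMmin ⟨hY.trans hMS.1, hYc, hYn, hYi⟩ hY)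

/-- every point of a minimal set is recurrent -/
theorem recurrent (hd : 0 < d) {V ν : ℝ} (hV : 0 < V) (hν : 0 < ν) {θ : Fin d → ℝ}
    {M : Set (Matrix (Fin d) (Fin d) ℝ)} (hMc : IsClosed M) (hMi : Inv1 θ M)
    (hmin : ∀ Y ⊆ M, IsClosed Y → Y.Nonempty → Inv1 θ Y → Y = M)
    (hdet : ∀ h ∈ M, |h.det| = V) (hnu : ∀ h ∈ M, HasNu h ν)
    {h₀ : Matrix (Fin d) (Fin d) ℝ} (hh₀ : h₀ ∈ M) {U : Set (Matrix (Fin d) (Fin d) ℝ)}
    (hU : U ∈ 𝓝 h₀) (N : ℕ) : ∃ (s : ℝ) (γ : Matrix (Fin d) (Fin d) ℤ), (N : ℝ) ≤ s ∧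
      IsUnit γ.det ∧ diagonal (fl θ s) * h₀ * zR γ ∈ U := by
  set P : ℕ → Set (Matrix (Fin d) (Fin d) ℝ) := fun N =>
    {h | ∃ (s : ℝ) (γ : Matrix (Fin d) (Fin d) ℤ), (N : ℝ) ≤ s ∧ IsUnit γ.det ∧
      h = diagonal (fl θ s) * h₀ * zR γ} with hP
  have hPM : ∀ N, P N ⊆ M := by
    rintro N _ ⟨s, γ, -, hγ, rfl⟩
    exact hMi h₀ hh₀ s γ hγ
  have key : (⋂ N, closure (P N)).Nonempty ∧ IsClosed (⋂ N, closure (P N)) ∧
      Inv1 θ (⋂ N, closure (P N)) := by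
    refine limset hd hV hν (θ := θ) P ?_ ?_ ?_ ?_
      (fun h hh => hdet h (hPM 0 hh)) (fun h hh => hnu h (hPM 0 hh))
    · rintro N N' hNN' _ ⟨s, γ, hs, hγ, rfl⟩
      exact ⟨s, γ, (by exact_mod_cast hNN' : (N : ℝ) ≤ N').trans hs, hγ, rfl⟩
    · intro N
      exact ⟨_, N, 1, le_rfl, by simp, rfl⟩
    · rintro N _ ⟨s, γ, hs, hγ, rfl⟩ γ' hγ'
      exact ⟨s, γ * γ', hs, by rw [det_mul]; exact hγ.mul hγ', by
        rw [zR_mul, Matrix.mul_assoc]⟩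
    · intro u
      obtain ⟨K, hK⟩ := exists_nat_ge |u|
      refine ⟨K, ?_⟩
      rintro N _ ⟨s, γ, hs, hγ, rfl⟩
      refine ⟨u + s, γ, ?_, hγ, ?_⟩
      · push_cast at hs
        have := neg_abs_le u
        linarith
      · rw [← fl_mul]
        simp only [Matrix.mul_assoc]
  obtain ⟨h1, h2, h3⟩ := key
  have h4 : (⋂ N, closure (P N)) ⊆ M := by
    intro h hh
    have h5 := Set.mem_iInter.1 hh 0
    exact hMc.closure_subset_iff.2 (hPM 0) h5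
  have h5 := hmin _ h4 h2 h1 h3
  have h6 : h₀ ∈ ⋂ N, closure (P N) := by rw [h5]; exact hh₀
  have h7 := Set.mem_iInter.1 h6 N
  obtain ⟨h', hh', s, γ, hs, hγ, rfl⟩ := mem_closure_iff_nhds.1 h7 U hU
  exact ⟨s, γ, hs, hγ, hh'⟩

end Pool.Agent.Zk73.OP
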