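import Mathlib
import Pool.Agent.Zk73.OP.A

/-! # Local determination by small values in a bounded window

A variant of `H715R2.determine` with a bound of the vectors. -/

open Filter Topology Matrix H715R2

namespace Pool.Agent.Zk73.OP

set_option linter.unusedSectionVars false

variable {d : ℕ}

/-- the size of the window -/
noncomputable def win (d : ℕ) (c r : ℝ) : ℝ :=
  |Real.log (r * (2 * (d : ℝ) ^ 2 * (r / c + 1) ^ 2 + 1))| +
    |Real.log (c / (2 * (d : ℝ) ^ 2 * (r / c + 1) ^ 2 + 1))|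

/-- local determination by small values in a bounded window -/
theorem determine' (hd : 0 < d) {h₀ : Matrix (Fin d) (Fin d) ℝ} {c r T : ℝ} (hc0 : 0 < c)
    (hdet : h₀.det ≠ 0) (hr : 0 < r)
    (hvec : ∀ b : Fin d → ℝ, (∀ i, 0 < b i) → ∏ i, b i = 1 → ∃ m : Fin d → ℤ,
      (∀ i, b i * |(h₀ *ᵥ iR m) i| < r) ∧ (∀ i, c ≤ b i * |(h₀ *ᵥ iR m) i|) ∧
      |FF h₀ (iR m)| < T) :
    ∃ m : Fin d × Fin d → (Fin d → ℤ), (∀ p, |FF h₀ (iR (m p))| < T) ∧
      (∀ p k, |Real.log (|(h₀ *ᵥ iR (m p)) k|)| ≤ win d c r) ∧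
      ∀ᶠ h in 𝓝 h₀, (∀ p, FF h (iR (m p)) = FF h₀ (iR (m p))) →
        ∃ a : Fin d → ℝ, (∀ i, 0 < a i) ∧ ∏ i, a i = 1 ∧ h = diagonal a * h₀ := by
  classical
  set ρ : ℝ := r / c + 1 with hρ
  have hrc : 0 < r / c := div_pos hr hc0
  have hρ1 : 1 ≤ ρ := by linarith
  have hρ0 : 0 < ρ := by linarith
  set τ : ℝ := 2 * (d : ℝ) ^ 2 * ρ ^ 2 + 1 with hτ
  have hτ1 : 1 ≤ τ := by
    have : 0 ≤ 2 * (d : ℝ) ^ 2 * ρ ^ 2 := by positivity
    linarith
  have hτ0 : 0 < τ := by linarith
  -- the diagonal matrices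
  set b : Fin d × Fin d → Fin d → ℝ := fun p j =>
    if p.1 = p.2 then 1 else if j = p.1 then τ else if j = p.2 then τ⁻¹ else 1 with hb
  have hb0 : ∀ p j, 0 < b p j := by
    intro p j
    simp only [hb]
    split_ifs <;> positivity
  have hb1 : ∀ p, ∏ j, b p j = 1 := by
    intro p
    by_cases hp : p.1 = p.2
    · simp [hb, hp]
    · rw [← Finset.mul_prod_erase Finset.univ _ (Finset.mem_univ p.1),
        ← Finset.mul_prod_erase (Finset.univ.erase p.1) _
          (Finset.mem_erase.2 ⟨fun h => hp h.symm, Finset.mem_univ p.2⟩)]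
      have h1 : b p p.1 = τ := by simp [hb, hp]
      have h2 : b p p.2 = τ⁻¹ := by
        simp only [hb]
        rw [if_neg hp, if_neg (fun h => hp h.symm)]
        simp
      have h3 : ∏ j ∈ (Finset.univ.erase p.1).erase p.2, b p j = 1 := by
        refine Finset.prod_eq_one fun j hj => ?_
        have hj2 := Finset.ne_of_mem_erase hj
        have hj1 := Finset.ne_of_mem_erase (Finset.mem_of_mem_erase hj)
        simp only [hb]
        rw [if_neg hp, if_neg hj1, if_neg hj2]
      rw [h1, h2, h3, mul_one, mul_inv_cancel₀ hτ0.ne']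
  choose m hm1 hm2 hm3 using fun p => hvec (b p) (hb0 p) (hb1 p)
  have hbτ : ∀ p k, b p k ≤ τ ∧ τ⁻¹ ≤ b p k := by
    intro p k
    have h1 : τ⁻¹ ≤ 1 := inv_le_one_of_one_le₀ hτ1
    simp only [hb]
    split_ifs
    · exact ⟨hτ1, h1⟩
    · exact ⟨le_refl _, h1.trans hτ1⟩
    · exact ⟨h1.trans hτ1, le_refl _⟩
    · exact ⟨hτ1, h1⟩
  refine ⟨m, hm3, fun p k => ?_, ?_⟩
  · have h1 := hm1 p k
    have h2 := hm2 p k
    obtain ⟨h3, h4⟩ := hbτ p k
    have hz : 0 < |(h₀ *ᵥ iR (m p)) k| := by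
      rcases (abs_nonneg ((h₀ *ᵥ iR (m p)) k)).lt_or_eq with h | h
      · exact h
      · rw [← h, mul_zero] at h2
        linarith
    have h5 : |(h₀ *ᵥ iR (m p)) k| ≤ r * τ := by
      have h6 : τ⁻¹ * |(h₀ *ᵥ iR (m p)) k| ≤ r :=
        (mul_le_mul_of_nonneg_right h4 hz.le).trans h1.le
      rw [inv_mul_le_iff₀ hτ0] at h6
      linarith
    have h6 : c / τ ≤ |(h₀ *ᵥ iR (m p)) k| := by
      rw [div_le_iff₀ hτ0]
      have h7 := h2.trans (mul_le_mul_of_nonneg_right h3 hz.le)
      linarith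
    have h7 := Real.log_le_log hz h5
    have h8 := Real.log_le_log (div_pos hc0 hτ0) h6
    have h9 : win d c r = |Real.log (r * τ)| + |Real.log (c / τ)| := rfl
    rw [h9, abs_le]
    constructor
    · have := neg_abs_le (Real.log (c / τ))
      have := abs_nonneg (Real.log (r * τ))
      linarith
    · have := le_abs_self (Real.log (r * τ))
      have := abs_nonneg (Real.log (c / τ))
      linarith
  set Z : Fin d × Fin d → Fin d → ℝ := fun p => h₀ *ᵥ iR (m p) with hZ
  have hZne : ∀ p j, Z p j ≠ 0 := by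
    intro p j h0
    have := hm2 p j
    simp only [hZ] at h0
    rw [h0, abs_zero, mul_zero] at this
    exact absurd this (not_le.2 hc0)
  -- ratios
  have hratio : ∀ p j l, |Z p l / Z p j| ≤ r / c * (b p j / b p l) := by
    intro p j l
    have h1 := hm1 p l
    have h2 := hm2 p j
    have h3 : |Z p l| ≤ r / b p l := by
      rw [le_div_iff₀ (hb0 p l), mul_comm]; exact h1.le
    have h4 : c / b p j ≤ |Z p j| := by
      rw [div_le_iff₀ (hb0 p j), mul_comm]; exact h2
    have h5 : 0 < c / b p j := div_pos hc0 (hb0 p j)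
    rw [abs_div]
    calc |Z p l| / |Z p j| ≤ (r / b p l) / (c / b p j) :=
          div_le_div₀ (div_nonneg hr.le (hb0 p l).le) h3 h5 h4
      _ = r / c * (b p j / b p l) := by
          have := (hb0 p l).ne'
          have := (hb0 p j).ne'
          field_simp
  have hratio2 : ∀ p j l, (b p j / b p l) / (r / c) ≤ |Z p l / Z p j| := by
    intro p j l
    have h1 := hratio p l j
    have h2 : 0 < |Z p j / Z p l| := abs_pos.2 (div_ne_zero (hZne _ _) (hZne _ _))
    have h3 : |Z p l / Z p j| = |Z p j / Z p l|⁻¹ := by rw [← abs_inv, inv_div]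
    rw [h3]
    have h4 : (b p j / b p l) / (r / c) = (r / c * (b p l / b p j))⁻¹ := by
      rw [mul_inv, inv_div (b p l), div_eq_mul_inv _ (r / c), mul_comm]
    rw [h4]
    exact inv_anti₀ h2 h1
  set i₀ : Fin d := ⟨0, hd⟩ with hi₀
  set z0 : Fin d → ℝ := Z (i₀, i₀) with hz0
  have hb00 : ∀ j, b (i₀, i₀) j = 1 := by intro j; simp [hb]
  have hz0r : ∀ j l, |z0 l / z0 j| ≤ ρ := by
    intro j l
    have := hratio (i₀, i₀) j l
    rw [hb00, hb00, div_one, mul_one] at this
    linarith
  have hinj : ∀ X : Fin d → Fin d → ℝ, (∀ i, X i i = 0) →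
      (∀ p : Fin d × Fin d, p.1 ≠ p.2 → ∑ j, ell (Z p) j X = ∑ j, ell z0 j X) → X = 0 := by
    refine inj_key Z z0 ρ τ hρ1 hτ1 (by rw [hτ]; linarith) ?_ ?_ hz0r
    · intro p hp
      have h1 := hratio2 p p.1 p.2
      have h2 : b p p.1 = τ := by simp [hb, hp]
      have h3 : b p p.2 = τ⁻¹ := by
        simp only [hb]
        rw [if_neg hp, if_neg (fun h => hp h.symm)]
        simp
      rw [h2, h3, div_inv_eq_mul, ← pow_two] at h1
      refine le_trans ?_ h1
      exact div_le_div_of_nonneg_left (by positivity) hrc (by linarith)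
    · intro p q hp hq hpq
      refine (hratio p q.1 q.2).trans ?_
      have h1 : b p q.1 / b p q.2 ≤ τ := by
        have hle : ∀ j, b p j ≤ τ := by
          intro j
          simp only [hb]
          split_ifs
          · exact hτ1
          · exact le_refl _
          · exact (inv_le_one_of_one_le₀ hτ1).trans hτ1
          · exact hτ1
        by_cases hq2 : q.2 = p.2
        · -- then `q.1 ≠ p.1`
          have hq1 : q.1 ≠ p.1 := fun h => hpq (Prod.ext h hq2)
          have h2 : b p q.1 = 1 := by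
            simp only [hb]
            rw [if_neg hp, if_neg hq1, if_neg (fun h => hq (h.trans hq2.symm))]
          have h3 : b p q.2 = τ⁻¹ := by
            rw [hq2]
            simp only [hb]
            rw [if_neg hp, if_neg (fun h => hp h.symm)]
            simp
          rw [h2, h3, one_div, inv_inv]
        · have h3 : 1 ≤ b p q.2 := by
            simp only [hb]
            rw [if_neg hp]
            split_ifs
            · exact hτ1
            · exact le_refl _
          exact (div_le_self (hb0 _ _).le h3).trans (hle _)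
      have h2 : 0 ≤ b p q.1 / b p q.2 := div_nonneg (hb0 _ _).le (hb0 _ _).le
      exact mul_le_mul (by linarith) h1 h2 hρ0.le
  -- the map
  let f : (Fin d → Fin d → ℝ) → (Fin d × Fin d → ℝ) := fun X p =>
    if p.1 = p.2 then X p.1 p.2 else Gz (Z p) X - Gz z0 X
  let f' : (Fin d → Fin d → ℝ) →L[ℝ] (Fin d × Fin d → ℝ) := ContinuousLinearMap.pi fun p =>
    if p.1 = p.2 then ((ContinuousLinearMap.proj (R := ℝ) (φ := fun _ : Fin d => ℝ) p.2).comp
      (ContinuousLinearMap.proj (R := ℝ) (φ := fun _ : Fin d => (Fin d → ℝ)) p.1))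
    else (∑ j, ell (Z p) j) - ∑ j, ell z0 j
  have hf : HasFDerivAt f f' 0 := by
    rw [hasFDerivAt_pi]
    intro p
    by_cases hp : p.1 = p.2
    · simp only [if_pos hp]
      exact ContinuousLinearMap.hasFDerivAt ((ContinuousLinearMap.proj (R := ℝ) (φ := fun _ : Fin d => ℝ) p.2).comp
        (ContinuousLinearMap.proj (R := ℝ) (φ := fun _ : Fin d => (Fin d → ℝ)) p.1))
    · simp only [if_neg hp]
      exact (hasFDerivAt_Gz (Z p)).sub (hasFDerivAt_Gz z0)
  have hf'inj : ∃ C, AntilipschitzWith C f' := by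
    obtain ⟨C, -, hC⟩ := (f' : (Fin d → Fin d → ℝ) →ₗ[ℝ] (Fin d × Fin d → ℝ)).exists_antilipschitzWith (by
      rw [LinearMap.ker_eq_bot']
      intro X hX
      have hXp : ∀ p, f' X p = 0 := fun p => congrFun hX p
      refine hinj X (fun i => ?_) (fun p hp => ?_)
      · have := hXp (i, i)
        simpa [f'] using this
      · have h1 := hXp p
        simp only [f', ContinuousLinearMap.pi_apply, if_neg hp, _root_.sub_apply,
          _root_.sum_apply] at h1
        linarith)
    exact ⟨C, hC⟩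
  have hev := hf.eventually_ne hf'inj (c := f 0)
  rw [eventually_nhdsWithin_iff] at hev
  -- pull back
  have hu : IsUnit h₀.det := isUnit_iff_ne_zero.2 hdet
  have hqc : Continuous (fun h : Matrix (Fin d) (Fin d) ℝ => h * h₀⁻¹) :=
    continuous_id.matrix_mul continuous_const
  have hq1 : h₀ * h₀⁻¹ = 1 := Matrix.mul_nonsing_inv _ hu
  have hqent : ∀ j l, Tendsto (fun h : Matrix (Fin d) (Fin d) ℝ => (h * h₀⁻¹) j l) (𝓝 h₀)
      (𝓝 ((1 : Matrix (Fin d) (Fin d) ℝ) j l)) := by
    intro j l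
    have h1 := ((continuous_apply_apply j l).comp hqc).tendsto h₀
    have h2 : (h₀ * h₀⁻¹) j l = (1 : Matrix (Fin d) (Fin d) ℝ) j l := by rw [hq1]
    rw [← h2]
    exact h1
  have hpos : ∀ᶠ h in 𝓝 h₀, ∀ j, 0 < (h * h₀⁻¹) j j := by
    refine Filter.eventually_all.2 fun j => ?_
    have h1 := hqent j j
    rw [Matrix.one_apply_eq] at h1
    exact h1.eventually (lt_mem_nhds one_pos)
  have hoff : Tendsto (fun h : Matrix (Fin d) (Fin d) ℝ => offd (h * h₀⁻¹)) (𝓝 h₀) (𝓝 0) := by
    rw [tendsto_pi_nhds]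
    intro j
    rw [tendsto_pi_nhds]
    intro l
    by_cases hjl : j = l
    · simp only [offd, if_pos hjl]
      exact tendsto_const_nhds
    · simp only [offd, if_neg hjl]
      have h1 := (hqent j l).div (hqent j j) (by rw [Matrix.one_apply_eq]; exact one_ne_zero)
      rw [Matrix.one_apply_ne hjl, zero_div] at h1
      exact h1
  filter_upwards [hoff.eventually hev, hpos] with h hh1 hh2 heq
  set q : Matrix (Fin d) (Fin d) ℝ := h * h₀⁻¹ with hq
  have hqh : q * h₀ = h := by
    rw [hq, Matrix.mul_assoc, Matrix.nonsing_inv_mul _ hu, Matrix.mul_one]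
  have hval : ∀ p, (∏ j, q j j) * Gz (Z p) (offd q) = 1 := by
    intro p
    have h1 := heq p
    rw [← hqh, FF_mul, FF_eq, FF_eq, prod_eq_Gz q (fun j => (hh2 j).ne') _ (hZne p)] at h1
    have h2 : ∏ j, Z p j ≠ 0 := Finset.prod_ne_zero_iff.2 fun j _ => hZne p j
    have h3 : (∏ j, Z p j) * ((∏ j, q j j) * Gz (Z p) (offd q)) = (∏ j, Z p j) * 1 := by
      rw [mul_one]
      have h4 : (∏ i, q i i) * (∏ i, (h₀ *ᵥ iR (m p)) i) * Gz (h₀ *ᵥ iR (m p)) (offd q)
          = ∏ i, (h₀ *ᵥ iR (m p)) i := h1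
      calc (∏ j, Z p j) * ((∏ j, q j j) * Gz (Z p) (offd q))
          = (∏ i, q i i) * (∏ i, (h₀ *ᵥ iR (m p)) i) * Gz (h₀ *ᵥ iR (m p)) (offd q) := by
            simp only [hZ]; ring
        _ = _ := h4
    exact mul_left_cancel₀ h2 h3
  have hXz : offd q = 0 := by
    by_contra hne
    apply hh1 hne
    funext p
    have hf0 : f 0 p = 0 := by
      simp only [f]
      split_ifs
      · rfl
      · simp [Gz]
    rw [hf0]
    simp only [f]
    split_ifs with hp
    · rw [offd, if_pos hp]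
    · have h1 := hval p
      have h2 := hval (i₀, i₀)
      have h3 : (∏ j, q j j) ≠ 0 := by
        intro h0
        rw [h0, zero_mul] at h1
        exact zero_ne_one h1
      have h4 : Gz (Z p) (offd q) = Gz z0 (offd q) := mul_left_cancel₀ h3 (h1.trans h2.symm)
      rw [h4, sub_self]
  have hqd : q = diagonal fun j => q j j := by
    ext j l
    by_cases hjl : j = l
    · rw [hjl, diagonal_apply_eq]
    · rw [diagonal_apply_ne _ hjl]
      have h1 := congrFun (congrFun hXz j) l
      rw [offd, if_neg hjl] at h1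
      exact (div_eq_zero_iff.1 h1).resolve_right (hh2 j).ne'
  refine ⟨fun j => q j j, hh2, ?_, ?_⟩
  · have h1 := hval (i₀, i₀)
    rw [hXz] at h1
    have h2 : Gz (Z (i₀, i₀)) 0 = 1 := by simp [Gz]
    rwa [h2, mul_one] at h1
  · rw [← hqd, hqh]

end Pool.Agent.Zk73.OP
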