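import Mathlib
import Pool.Agent.Zk73.OP.Det
import Pool.Agent.N759.FV.Auto
import Pool.Agent.R750.CV.Dir

/-! # Limit values along segments of one direction -/

set_option autoImplicit false

open Filter Topology Matrix H715R2

namespace Pool.Agent.Zk73.OP

variable {d : ℕ}

/-- the part of the orbit over the inner parts of the segments `b j + s θ`, `0 ≤ s ≤ l j` -/
def SegP (θ : Fin d → ℝ) (b : ℕ → Fin d → ℝ) (l : ℕ → ℝ) (g : Matrix (Fin d) (Fin d) ℝ)
    (N : ℕ) : Set (Matrix (Fin d) (Fin d) ℝ) :=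
  {h | ∃ (j : ℕ) (s : ℝ) (γ : Matrix (Fin d) (Fin d) ℤ), N ≤ j ∧ (N : ℝ) ≤ s ∧ s ≤ l j - N ∧
    IsUnit γ.det ∧ h = diagonal (fun k => Real.exp (-(b j k + s * θ k))) * g * zR γ}

/-- the limit values in windows of size `C` along the segments -/
def LimS (θ : Fin d → ℝ) (b : ℕ → Fin d → ℝ) (l : ℕ → ℝ) (C : ℝ)
    (g : Matrix (Fin d) (Fin d) ℝ) : Set ℝ :=
  {t | ∀ (ε : ℝ) (N : ℕ), 0 < ε → ∃ (j : ℕ) (s : ℝ) (x : Fin d → ℤ), N ≤ j ∧ 0 ≤ s ∧ s ≤ l j ∧
    x ≠ 0 ∧ (∀ k, |Real.log |(g *ᵥ iR x) k| - (b j k + s * θ k)| ≤ C) ∧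
    |(|FF g (iR x)| - t)| < ε}

lemma prod_exp {θ : Fin d → ℝ} (hθ : ∑ k, θ k = 0) {b : ℕ → Fin d → ℝ}
    (hb : ∀ j, ∑ k, b j k = 0) (j : ℕ) (s : ℝ) :
    ∏ k, Real.exp (-(b j k + s * θ k)) = 1 := by
  rw [← Real.exp_sum, Finset.sum_neg_distrib, Finset.sum_add_distrib, ← Finset.mul_sum, hθ, hb,
    mul_zero, add_zero, neg_zero, Real.exp_zero]

lemma SegP_subset {θ : Fin d → ℝ} (hθ : ∑ k, θ k = 0) {b : ℕ → Fin d → ℝ}
    (hb : ∀ j, ∑ k, b j k = 0) (l : ℕ → ℝ) (g : Matrix (Fin d) (Fin d) ℝ) (N : ℕ) :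
    SegP θ b l g N ⊆ Orb g := by
  rintro _ ⟨j, s, γ, -, -, -, hγ, rfl⟩
  exact ⟨_, γ, fun k => Real.exp_pos _, prod_exp hθ hb j s, hγ, rfl⟩

lemma limS_mem {θ : Fin d → ℝ} {b : ℕ → Fin d → ℝ} {l : ℕ → ℝ}
    {g h : Matrix (Fin d) (Fin d) ℝ} {ν : ℝ} (hν : 0 < ν) (hθ : ∑ k, θ k = 0)
    (hb : ∀ j, ∑ k, b j k = 0)
    (hh : h ∈ ⋂ N, closure (SegP θ b l g N)) (hnu : HasNu h ν) {m : Fin d → ℤ} (hm : m ≠ 0)
    {C : ℝ} (hC : ∀ k, |Real.log (|(h *ᵥ iR m) k|)| < C) :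
    |FF h (iR m)| ∈ LimS θ b l C g := by
  classical
  intro ε N hε
  have hpos : ∀ k, 0 < |(h *ᵥ iR m) k| := by
    intro k
    rw [abs_pos]
    intro h0
    have h1 := hnu m hm
    rw [FF_eq, Finset.prod_eq_zero (Finset.mem_univ k) h0, abs_zero] at h1
    exact absurd h1 (not_le.2 hν)
  have hopen : ∀ᶠ h' in 𝓝 h, (∀ k, |Real.log (|(h' *ᵥ iR m) k|)| < C ∧ (h' *ᵥ iR m) k ≠ 0) ∧
      |(|FF h' (iR m)| - |FF h (iR m)|)| < ε := by
    refine (Filter.eventually_all.2 fun k => ?_).and ?_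
    · have hc : Tendsto (fun h' : Matrix (Fin d) (Fin d) ℝ => |(h' *ᵥ iR m) k|) (𝓝 h)
          (𝓝 |(h *ᵥ iR m) k|) := ((R750.CV.cont_entry m k).tendsto h).abs
      have hl := ((Real.continuousAt_log (hpos k).ne').tendsto.comp hc).abs
      refine (hl.eventually (gt_mem_nhds (hC k))).and ?_
      filter_upwards [hc.eventually (lt_mem_nhds (hpos k))] with h' hh'
      exact abs_pos.1 hh'
    · have h1 : Tendsto (fun h' : Matrix (Fin d) (Fin d) ℝ =>
          |(|FF h' (iR m)| - |FF h (iR m)|)|) (𝓝 h) (𝓝 0) := by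
        have := ((((continuous_FF (iR m)).tendsto h).abs).sub_const |FF h (iR m)|).abs
        rwa [sub_self, abs_zero] at this
      exact h1.eventually (gt_mem_nhds hε)
  have hmem : h ∈ closure (SegP θ b l g N) := Set.mem_iInter.1 hh N
  obtain ⟨h', ⟨h1, h2⟩, j, s, γ, hj, hs1, hs2, hγ, rfl⟩ :=
    mem_closure_iff_nhds.1 hmem _ hopen
  have hN : (0 : ℝ) ≤ N := Nat.cast_nonneg _
  refine ⟨j, s, γ *ᵥ m, hj, by linarith, by linarith, gamma_ne hγ hm, fun k => ?_, ?_⟩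
  · obtain ⟨h3, h4⟩ := h1 k
    rw [R750.CV.orb_entry] at h3 h4
    have h5 : (g *ᵥ iR (γ *ᵥ m)) k ≠ 0 := fun h0 => h4 (by rw [h0, mul_zero])
    rw [abs_mul, abs_of_pos (Real.exp_pos _), Real.log_mul (Real.exp_pos _).ne'
      (abs_pos.2 h5).ne', Real.log_exp] at h3
    have e : Real.log (|(g *ᵥ iR (γ *ᵥ m)) k|) - (b j k + s * θ k) =
        -(b j k + s * θ k) + Real.log (|(g *ᵥ iR (γ *ᵥ m)) k|) := by ring
    rw [e]
    exact h3.le
  · rw [FF_orb (prod_exp hθ hb j s)] at h2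
    exact h2

lemma le_div_minFac {n D : ℕ} (hn : 0 < n) (hD : D ∣ n) (hne : D ≠ n) : D ≤ n / n.minFac := by
  obtain ⟨k, hk⟩ := hD
  have hk2 : 2 ≤ k := by
    rcases Nat.lt_or_ge k 2 with h | h
    · interval_cases k
      · omega
      · exfalso; apply hne; rw [hk, mul_one]
    · exact h
  have h1 : n.minFac ≤ k := Nat.minFac_le_of_dvd hk2 ⟨D, by rw [hk, mul_comm]⟩
  rw [Nat.le_div_iff_mul_le (Nat.minFac_pos n)]
  calc D * n.minFac ≤ D * k := Nat.mul_le_mul_left _ h1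
    _ = n := hk.symm

/-- **Countably many limit values along long segments of one direction.** -/
theorem segments (hd : 3 ≤ d) {V ν T : ℝ} (hV : 0 < V) (hν : 0 < ν)
    (hT : ∀ h : Matrix (Fin d) (Fin d) ℝ, |h.det| = V →
      ∃ m : Fin d → ℤ, m ≠ 0 ∧ |FF h (iR m)| < T) :
    ∃ C : ℝ, ∀ g : Matrix (Fin d) (Fin d) ℝ, |g.det| = V → HasNu g ν →
      ∀ θ : Fin d → ℝ, ∑ k, θ k = 0 → d / d.minFac < (Finset.univ.image θ).card →
      ∀ (b : ℕ → Fin d → ℝ) (l : ℕ → ℝ), (∀ j, ∑ k, b j k = 0) → Tendsto l atTop atTop →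
      {t : ℝ | t < T ∧ t ∈ LimS θ b l C g}.Countable → PropInt g := by
  classical
  have hd0 : 0 < d := by omega
  obtain ⟨r, hr0, hvec⟩ := exists_vec_gen hd0 V ν T hV hν hT
  refine ⟨win d (ν / r ^ (d - 1)) r + 1, ?_⟩
  set C₀ : ℝ := win d (ν / r ^ (d - 1)) r with hC₀
  intro g hgV hnu θ hθ hθ2 b l hb hl hcount
  have hg : g.det ≠ 0 := by
    intro h0
    rw [h0, abs_zero] at hgV
    exact hV.ne hgV
  have hPO : ∀ N, SegP θ b l g N ⊆ closure (Orb g) := fun N =>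
    (SegP_subset hθ hb l g N).trans subset_closure
  have hPdet : ∀ h ∈ SegP θ b l g 0, |h.det| = V := fun h hh => by
    rw [abs_det_closure (hPO 0 hh), hgV]
  have hPnu : ∀ h ∈ SegP θ b l g 0, HasNu h ν := fun h hh => hasNu_closure hnu (hPO 0 hh)
  have key : (⋂ N, closure (SegP θ b l g N)).Nonempty ∧
      IsClosed (⋂ N, closure (SegP θ b l g N)) ∧ Inv1 θ (⋂ N, closure (SegP θ b l g N)) := by
    refine limset hd0 hV hν (θ := θ) (SegP θ b l g) ?_ ?_ ?_ ?_ hPdet hPnu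
    · rintro N N' hNN' _ ⟨j, s, γ, h1, h2, h3, h4, rfl⟩
      have h5 : (N : ℝ) ≤ N' := by exact_mod_cast hNN'
      exact ⟨j, s, γ, hNN'.trans h1, h5.trans h2, by linarith, h4, rfl⟩
    · intro N
      obtain ⟨j, hj1, hj2⟩ := ((hl.eventually (eventually_ge_atTop (2 * (N : ℝ)))).and
        (eventually_ge_atTop N)).exists
      exact ⟨_, j, N, 1, hj2, le_rfl, by linarith, by simp, rfl⟩
    · rintro N _ ⟨j, s, γ, h1, h2, h3, h4, rfl⟩ γ' hγ'
      exact ⟨j, s, γ * γ', h1, h2, h3, by rw [det_mul]; exact h4.mul hγ', by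
        rw [zR_mul, Matrix.mul_assoc]⟩
    · intro u
      obtain ⟨K, hK⟩ := exists_nat_ge |u|
      refine ⟨K, ?_⟩
      rintro N _ ⟨j, s, γ, h1, h2, h3, h4, rfl⟩
      push_cast at h2 h3
      have h5 := neg_abs_le u
      have h6 := le_abs_self u
      refine ⟨j, u + s, γ, by omega, by linarith, by linarith, h4, ?_⟩
      rw [← Matrix.mul_assoc, ← Matrix.mul_assoc, diagonal_mul_diagonal]
      congr 3
      funext k
      simp only [fl]
      rw [← Real.exp_add]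
      congr 1
      ring
  obtain ⟨hX1, hX2, hX3⟩ := key
  set X := ⋂ N, closure (SegP θ b l g N) with hX
  have hXO : X ⊆ closure (Orb g) := fun h hh =>
    closure_minimal (hPO 0) isClosed_closure (Set.mem_iInter.1 hh 0)
  have hXdet : ∀ h ∈ X, |h.det| = V := fun h hh => by rw [abs_det_closure (hXO hh), hgV]
  have hXnu : ∀ h ∈ X, HasNu h ν := fun h hh => hasNu_closure hnu (hXO hh)
  obtain ⟨M, hMX, hMc, hMne, hMi, hMmin⟩ := exists_minimal1 hd0 hV hν hX2 hX1 hX3 hXdet hXnu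
  set S : Set ℝ := {t : ℝ | t < T ∧ t ∈ LimS θ b l (C₀ + 1) g} with hS
  set C : Set ℝ := S ∪ (fun t => -t) '' S with hCdef
  have hCc : C.Countable := hcount.union (hcount.image _)
  obtain ⟨h₀, hh₀, hconst⟩ := locally_const hMc hMne C hCc
  have hdet : |h₀.det| = V := hXdet _ (hMX hh₀)
  have hdet0 : h₀.det ≠ 0 := by
    intro h0
    rw [h0, abs_zero] at hdet
    exact hV.ne hdet
  have hnu₀ := hXnu _ (hMX hh₀)
  obtain ⟨m, hm1, hm2, hm3⟩ := determine' hd0 (div_pos hν (pow_pos hr0 _)) hdet0 hr0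
    (hvec h₀ hdet hnu₀)
  have hFne : ∀ p, m p ≠ 0 ∨ FF h₀ (iR (m p)) = 0 := by
    intro p
    by_cases h : m p = 0
    · right
      rw [h, FF_eq]
      have h1 : iR (0 : Fin d → ℤ) = 0 := by funext l; simp [iR]
      rw [h1, mulVec_zero]
      exact Finset.prod_eq_zero (Finset.mem_univ ⟨0, hd0⟩) rfl
    · left
      exact h
  have hev1 : ∀ᶠ h in 𝓝[M] h₀, ∀ p, FF h (iR (m p)) = FF h₀ (iR (m p)) := by
    refine Filter.eventually_all.2 fun p => ?_
    by_cases hmp : m p = 0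
    · refine Eventually.of_forall fun h => ?_
      have h1 : iR (m p) = 0 := by rw [hmp]; funext l; simp [iR]
      have h2 : ∀ h : Matrix (Fin d) (Fin d) ℝ, FF h (iR (m p)) = 0 := by
        intro h
        rw [FF_eq, h1, mulVec_zero]
        exact Finset.prod_eq_zero (Finset.mem_univ ⟨0, hd0⟩) rfl
      rw [h2, h2]
    · refine hconst (m p) ?_
      have h1 := limS_mem (θ := θ) (b := b) (l := l) hν hθ hb (hMX hh₀) hnu₀ hmp
        (C := C₀ + 1) (fun k => (hm2 p k).trans_lt (lt_add_one _))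
      rcases le_total 0 (FF h₀ (iR (m p))) with h2 | h2
      · left
        rw [abs_of_nonneg h2] at h1
        refine ⟨?_, h1⟩
        have := hm1 p
        rwa [abs_of_nonneg h2] at this
      · right
        rw [abs_of_nonpos h2] at h1
        refine ⟨-FF h₀ (iR (m p)), ⟨?_, h1⟩, by simp⟩
        have := hm1 p
        rwa [abs_of_nonpos h2] at this
  have hloc : ∀ᶠ h in 𝓝[M] h₀, ∃ a : Fin d → ℝ, (∀ i, 0 < a i) ∧ ∏ i, a i = 1 ∧
      h = diagonal a * h₀ := by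
    filter_upwards [hev1, nhdsWithin_le_nhds hm3] with h hh1 hh2
    exact hh2 hh1
  -- the return
  have hu : IsUnit h₀.det := isUnit_iff_ne_zero.2 hdet0
  obtain ⟨U, hU, hUM⟩ := mem_nhdsWithin_iff_exists_mem_nhds_inter.1 hloc
  have hq : ∀ᶠ h in 𝓝 h₀, ∀ k, (1 : ℝ) / 2 < (h * h₀⁻¹) k k ∧ (h * h₀⁻¹) k k < 2 := by
    refine Filter.eventually_all.2 fun k => ?_
    have h1 : Tendsto (fun h : Matrix (Fin d) (Fin d) ℝ => (h * h₀⁻¹) k k) (𝓝 h₀)
        (𝓝 ((h₀ * h₀⁻¹) k k)) :=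
      ((continuous_apply_apply k k).comp
        (continuous_id.matrix_mul continuous_const)).tendsto h₀
    rw [Matrix.mul_nonsing_inv _ hu, Matrix.one_apply_eq] at h1
    exact (h1.eventually (lt_mem_nhds (by norm_num))).and
      (h1.eventually (gt_mem_nhds (by norm_num)))
  -- the least difference of the coordinates of `θ`
  obtain ⟨N, hN⟩ : ∃ N : ℕ, ∀ i k, θ i < θ k → Real.log 4 < N * (θ k - θ i) := by
    have : ∀ p : Fin d × Fin d, ∃ N : ℕ, θ p.1 < θ p.2 →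
        Real.log 4 < N * (θ p.2 - θ p.1) := by
      intro p
      obtain ⟨N, hN⟩ := exists_nat_gt (Real.log 4 / (θ p.2 - θ p.1))
      exact ⟨N, fun h => (div_lt_iff₀ (sub_pos.2 h)).1 hN⟩
    choose f hf using this
    refine ⟨∑ p, f p, fun i k hik => (hf (i, k) hik).trans_le ?_⟩
    refine mul_le_mul_of_nonneg_right ?_ (sub_nonneg.2 hik.le)
    exact_mod_cast Finset.single_le_sum (f := f) (fun _ _ => Nat.zero_le _)
      (Finset.mem_univ (i, k))
  obtain ⟨s, γ, hsN, hγ, hsU, hsq⟩ := recurrent hd0 hV hν hMc hMi hMmin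
    (fun h hh => hXdet h (hMX hh)) (fun h hh => hXnu h (hMX hh)) hh₀
    (Filter.inter_mem hU hq) N
  have hsM := hMi h₀ hh₀ s γ hγ
  obtain ⟨a, ha0, -, ha⟩ := hUM ⟨hsU, hsM⟩
  have ha2 : ∀ k, (1 : ℝ) / 2 < a k ∧ a k < 2 := by
    intro k
    have h1 := hsq k
    rwa [ha, Matrix.mul_assoc, Matrix.mul_nonsing_inv _ hu, Matrix.mul_one,
      diagonal_apply_eq] at h1
  set c : Fin d → ℝ := fun k => Real.exp (s * θ k) * a k with hc
  have hδ : h₀ * zR γ = diagonal c * h₀ := by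
    have h1 : (diagonal (fun k => Real.exp (s * θ k)) : Matrix (Fin d) (Fin d) ℝ) *
        diagonal (fl θ s) = 1 := by
      rw [diagonal_mul_diagonal, ← diagonal_one]
      congr 1
      funext k
      simp only [fl]
      rw [← Real.exp_add, add_neg_cancel, Real.exp_zero]
    calc h₀ * zR γ = (diagonal (fun k => Real.exp (s * θ k)) * diagonal (fl θ s)) *
          (h₀ * zR γ) := by rw [h1, Matrix.one_mul]
      _ = diagonal (fun k => Real.exp (s * θ k)) * (diagonal (fl θ s) * h₀ * zR γ) := by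
          simp only [Matrix.mul_assoc]
      _ = diagonal c * h₀ := by
          rw [ha, ← Matrix.mul_assoc, diagonal_mul_diagonal]
  have hcne : ∀ i k, θ i < θ k → c i < c k := by
    intro i k hik
    have h1 : Real.log 4 < s * (θ k - θ i) :=
      (hN i k hik).trans_le (mul_le_mul_of_nonneg_right hsN (sub_nonneg.2 hik.le))
    have h2 : (4 : ℝ) < Real.exp (s * (θ k - θ i)) := by
      rwa [← Real.log_lt_iff_lt_exp (by norm_num)]
    have h3 : Real.exp (s * θ k) = Real.exp (s * θ i) * Real.exp (s * (θ k - θ i)) := by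
      rw [← Real.exp_add]
      congr 1
      ring
    simp only [hc]
    rw [h3]
    have h4 := Real.exp_pos (s * θ i)
    have h5 := (ha2 i).2
    have h6 := (ha2 k).1
    rw [mul_assoc]
    refine mul_lt_mul_of_pos_left ?_ h4
    nlinarith
  -- the automorph has distinct eigenvalues
  obtain ⟨D, hD1, hD2, hD3⟩ := N759.FV.automorph_structure hd0 hdet0 hν hnu₀ hδ
  have hcard : (Finset.univ.image θ).card ≤ (Finset.univ.image c).card := by
    refine Finset.card_le_card_of_surjOn (fun t => if h : ∃ k, c k = t then θ h.choose else 0)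
      ?_
    intro u hu
    obtain ⟨k, -, rfl⟩ := Finset.mem_image.1 (Finset.mem_coe.1 hu)
    refine ⟨c k, Finset.mem_coe.2 (Finset.mem_image_of_mem c (Finset.mem_univ k)), ?_⟩
    have hex : ∃ k', c k' = c k := ⟨k, rfl⟩
    simp only
    rw [dif_pos hex]
    have h1 := hex.choose_spec
    rcases lt_trichotomy (θ hex.choose) (θ k) with h2 | h2 | h2
    · exact absurd h1 (hcne _ _ h2).ne
    · exact h2
    · exact absurd h1 (hcne _ _ h2).ne'
  have hDd : D = d := by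
    by_contra hne
    have h1 := le_div_minFac hd0 hD1 hne
    omega
  obtain ⟨-, hcinj⟩ := hD3 hDd
  obtain ⟨K, hfin, hK, t, ht, hmem⟩ := exists_alg_row hdet0 γ c hcinj hδ ⟨0, hd0⟩
  rcases limit_alg hd hg (hXO (hMX hh₀)) ⟨0, hd0⟩ t ht K hK hmem with
    ⟨x, hx, hx0⟩ | hint | hdense
  · exfalso
    have h1 := hnu₀ x hx
    have h2 : FF h₀ (iR x) = 0 := by
      rw [FF]
      exact Finset.prod_eq_zero (Finset.mem_univ ⟨0, hd0⟩) hx0
    rw [h2, abs_zero] at h1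
    exact absurd h1 (not_le.2 hν)
  · exact hint
  · exfalso
    obtain ⟨x, hx, hx2⟩ := dense_ne hd0 hdense 0 ν hν
    rw [sub_zero] at hx2
    exact absurd (hnu x hx) (not_le.2 hx2)

end Pool.Agent.Zk73.OP
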