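import Mathlib
import Pool.Agent.N759.FV.Det3

/-! # Quantitative local determination of a matrix of given determinant by small values -/

open Filter Topology Matrix H715R2 Pool.Agent.W777.FV Pool.Agent.N759.FV

namespace Pool.Agent.Zk73.OP

variable {d : ℕ}

lemma anti_near {E F : Type*} [NormedAddCommGroup E] [NormedSpace ℝ E] [NormedAddCommGroup F]
    [NormedSpace ℝ F] {f : E → F} {f' : E →L[ℝ] F} {x : E} (hf : HasStrictFDerivAt f f' x)
    {C : NNReal} (hC : AntilipschitzWith C f') :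
    ∃ U ∈ 𝓝 x, ∀ a ∈ U, ∀ b ∈ U, ‖a - b‖ ≤ 2 * C * ‖f a - f b‖ := by
  have hc : (0 : NNReal) < 1 / (2 * (C + 1)) := by positivity
  obtain ⟨U, hU, hap⟩ := hf.approximates_deriv_on_nhds (c := 1 / (2 * (C + 1))) (Or.inr hc)
  refine ⟨U, hU, fun a ha b hb => ?_⟩
  have h1 := hap a ha b hb
  have h2 := hC.le_mul_dist a b
  rw [dist_eq_norm, dist_eq_norm, ← map_sub] at h2
  have hC0 : (0 : ℝ) ≤ C := C.coe_nonneg
  have h3 : ‖f' (a - b)‖ ≤ ‖f a - f b‖ + (1 / (2 * (C + 1)) : NNReal) * ‖a - b‖ := by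
    have h4 : f' (a - b) = (f a - f b) - (f a - f b - f' (a - b)) := by abel
    rw [h4]
    exact (norm_sub_le _ _).trans (by linarith)
  have h5 : ‖a - b‖ ≤ C * ‖f a - f b‖ + C * ((1 / (2 * (C + 1)) : NNReal) * ‖a - b‖) := by
    rw [← mul_add]
    exact h2.trans (mul_le_mul_of_nonneg_left h3 hC0)
  have h4 : (C : ℝ) * ((1 / (2 * (C + 1)) : NNReal) * ‖a - b‖) ≤ 1 / 2 * ‖a - b‖ := by
    rw [← mul_assoc]
    refine mul_le_mul_of_nonneg_right ?_ (norm_nonneg _)
    push_cast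
    rw [mul_one_div, div_le_div_iff₀ (by positivity) (by norm_num)]
    linarith
  linarith

lemma continuousAt_inv' {h₀ : Matrix (Fin d) (Fin d) ℝ} (hdet : h₀.det ≠ 0) :
    ContinuousAt (fun h : Matrix (Fin d) (Fin d) ℝ => h⁻¹) h₀ := by
  have h1 : (fun h : Matrix (Fin d) (Fin d) ℝ => h⁻¹) = fun h => (h.det)⁻¹ • h.adjugate := by
    funext h
    rw [Matrix.inv_def, Ring.inverse_eq_inv']
  rw [h1]
  exact ((continuous_id.matrix_det).continuousAt.inv₀ hdet).smul
    (continuous_id.matrix_adjugate).continuousAt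

/-- **Quantitative local determination for pairs of matrices with the same determinant.** -/
theorem determine4 (i₀ : Fin d) {h₀ : Matrix (Fin d) (Fin d) ℝ} {c r T : ℝ} (hc0 : 0 < c)
    (hdet : h₀.det ≠ 0) (hr : 0 < r)
    (hvec : ∀ b : Fin d → ℝ, (∀ i, 0 < b i) → ∏ i, b i = 1 → ∃ m : Fin d → ℤ,
      (∀ i, b i * |(h₀ *ᵥ iR m) i| < r) ∧ (∀ i, c ≤ b i * |(h₀ *ᵥ iR m) i|) ∧
      |FF h₀ (iR m)| < T) :
    ∃ m : Fin d × Fin d → (Fin d → ℤ), (∀ p, m p ≠ 0 ∧ |FF h₀ (iR (m p))| < T) ∧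
      ∃ C : ℝ, 0 ≤ C ∧ ∃ U ∈ 𝓝 h₀, ∀ h ∈ U, ∀ h' ∈ U, |h.det| = |h'.det| → ∀ η : ℝ, 0 ≤ η →
        (∀ p : Fin d × Fin d, p.1 ≠ p.2 → |FF h (iR (m p)) - FF h' (iR (m p))| ≤ η) →
        ∃ u : Matrix (Fin d) (Fin d) ℝ, h' = u * h ∧ (∀ i j, i ≠ j → |u i j| ≤ C * η) ∧
          ∀ i, 1 / 2 ≤ u i i ∧ u i i ≤ 2 := by
  classical
  set ρ : ℝ := r / c + 1 with hρ
  have hrc : 0 < r / c := div_pos hr hc0
  have hρ1 : 1 ≤ ρ := by linarith
  have hρ0 : 0 < ρ := by linarith
  set τ : ℝ := 2 * (d : ℝ) ^ 2 * ρ ^ 2 + 1 with hτ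
  have hτ1 : 1 ≤ τ := by
    have : 0 ≤ 2 * (d : ℝ) ^ 2 * ρ ^ 2 := by positivity
    linarith
  have hτ0 : 0 < τ := by linarith
  -- the diagonal matrices
  set b : Fin d × Fin d → Fin d → ℝ := fun p j =>
    if p.1 = p.2 then 1 else if j = p.1 then τ else if j = p.2 then τ⁻¹ else 1 with hb
  have hb0 : ∀ p j, 0 < b p j := by
    intro p j
    simp only [hb]
    split_ifs <;> positivity
  have hb1 : ∀ p, ∏ j, b p j = 1 := by
    intro p
    by_cases hp : p.1 = p.2
    · simp [hb, hp]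
    · rw [← Finset.mul_prod_erase Finset.univ _ (Finset.mem_univ p.1),
        ← Finset.mul_prod_erase (Finset.univ.erase p.1) _
          (Finset.mem_erase.2 ⟨fun h => hp h.symm, Finset.mem_univ p.2⟩)]
      have h1 : b p p.1 = τ := by simp [hb, hp]
      have h2 : b p p.2 = τ⁻¹ := by
        simp only [hb]
        rw [if_neg hp, if_neg (fun h => hp h.symm)]
        simp
      have h3 : ∏ j ∈ (Finset.univ.erase p.1).erase p.2, b p j = 1 := by
        refine Finset.prod_eq_one fun j hj => ?_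
        have hj2 := Finset.ne_of_mem_erase hj
        have hj1 := Finset.ne_of_mem_erase (Finset.mem_of_mem_erase hj)
        simp only [hb]
        rw [if_neg hp, if_neg hj1, if_neg hj2]
      rw [h1, h2, h3, mul_one, mul_inv_cancel₀ hτ0.ne']
  choose m hm1 hm2 hm3 using fun p => hvec (b p) (hb0 p) (hb1 p)
  refine ⟨m, fun p => ⟨fun h0 => ?_, hm3 p⟩, ?_⟩
  · have h1 := hm2 p i₀
    have h2 : iR (m p) = 0 := by
      rw [h0]
      funext j
      simp [iR]
    rw [h2, mulVec_zero, Pi.zero_apply, abs_zero, mul_zero] at h1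
    exact absurd h1 (not_le.2 hc0)
  set Z : Fin d × Fin d → Fin d → ℝ := fun p => h₀ *ᵥ iR (m p) with hZ
  have hZne : ∀ p j, Z p j ≠ 0 := by
    intro p j h0
    have := hm2 p j
    simp only [hZ] at h0
    rw [h0, abs_zero, mul_zero] at this
    exact absurd this (not_le.2 hc0)
  -- ratios
  have hratio : ∀ p j l, |Z p l / Z p j| ≤ r / c * (b p j / b p l) := by
    intro p j l
    have h1 := hm1 p l
    have h2 := hm2 p j
    have h3 : |Z p l| ≤ r / b p l := by
      rw [le_div_iff₀ (hb0 p l), mul_comm]; exact h1.le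
    have h4 : c / b p j ≤ |Z p j| := by
      rw [div_le_iff₀ (hb0 p j), mul_comm]; exact h2
    have h5 : 0 < c / b p j := div_pos hc0 (hb0 p j)
    rw [abs_div]
    calc |Z p l| / |Z p j| ≤ (r / b p l) / (c / b p j) :=
          div_le_div₀ (div_nonneg hr.le (hb0 p l).le) h3 h5 h4
      _ = r / c * (b p j / b p l) := by
          have := (hb0 p l).ne'
          have := (hb0 p j).ne'
          field_simp
  have hratio2 : ∀ p j l, (b p j / b p l) / (r / c) ≤ |Z p l / Z p j| := by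
    intro p j l
    have h1 := hratio p l j
    have h2 : 0 < |Z p j / Z p l| := abs_pos.2 (div_ne_zero (hZne _ _) (hZne _ _))
    have h3 : |Z p l / Z p j| = |Z p j / Z p l|⁻¹ := by rw [← abs_inv, inv_div]
    rw [h3]
    have h4 : (b p j / b p l) / (r / c) = (r / c * (b p l / b p j))⁻¹ := by
      rw [mul_inv, inv_div (b p l), div_eq_mul_inv _ (r / c), mul_comm]
    rw [h4]
    exact inv_anti₀ h2 h1
  have hinj : ∀ X : Fin d → Fin d → ℝ, (∀ i, X i i = 0) →
      (∀ p : Fin d × Fin d, p.1 ≠ p.2 → ∑ j, ell (Z p) j X = ∑ j, ell 0 j X) → X = 0 := by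
    refine inj_key Z 0 ρ τ hρ1 hτ1 (by rw [hτ]; linarith) ?_ ?_ (fun j l => by simpa using hρ0.le)
    · intro p hp
      have h1 := hratio2 p p.1 p.2
      have h2 : b p p.1 = τ := by simp [hb, hp]
      have h3 : b p p.2 = τ⁻¹ := by
        simp only [hb]
        rw [if_neg hp, if_neg (fun h => hp h.symm)]
        simp
      rw [h2, h3, div_inv_eq_mul, ← pow_two] at h1
      refine le_trans ?_ h1
      exact div_le_div_of_nonneg_left (by positivity) hrc (by linarith)
    · intro p q hp hq hpq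
      refine (hratio p q.1 q.2).trans ?_
      have h1 : b p q.1 / b p q.2 ≤ τ := by
        have hle : ∀ j, b p j ≤ τ := by
          intro j
          simp only [hb]
          split_ifs
          · exact hτ1
          · exact le_refl _
          · exact (inv_le_one_of_one_le₀ hτ1).trans hτ1
          · exact hτ1
        by_cases hq2 : q.2 = p.2
        · -- then `q.1 ≠ p.1`
          have hq1 : q.1 ≠ p.1 := fun h => hpq (Prod.ext h hq2)
          have h2 : b p q.1 = 1 := by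
            simp only [hb]
            rw [if_neg hp, if_neg hq1, if_neg (fun h => hq (h.trans hq2.symm))]
          have h3 : b p q.2 = τ⁻¹ := by
            rw [hq2]
            simp only [hb]
            rw [if_neg hp, if_neg (fun h => hp h.symm)]
            simp
          rw [h2, h3, one_div, inv_inv]
        · have h3 : 1 ≤ b p q.2 := by
            simp only [hb]
            rw [if_neg hp]
            split_ifs
            · exact hτ1
            · exact le_refl _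
          exact (div_le_self (hb0 _ _).le h3).trans (hle _)
      have h2 : 0 ≤ b p q.1 / b p q.2 := div_nonneg (hb0 _ _).le (hb0 _ _).le
      exact mul_le_mul (by linarith) h1 h2 hρ0.le
  -- the map
  let E := (Fin d → Fin d → ℝ) × ℝ
  let pr : Fin d × Fin d → (E →L[ℝ] ℝ) := fun p =>
    ((ContinuousLinearMap.proj (R := ℝ) (φ := fun _ : Fin d => ℝ) p.2).comp
      (ContinuousLinearMap.proj (R := ℝ) (φ := fun _ : Fin d => (Fin d → ℝ)) p.1)).comp
      (ContinuousLinearMap.fst ℝ (Fin d → Fin d → ℝ) ℝ)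
  let f : E → (Option (Fin d × Fin d) → ℝ) := fun X o =>
    match o with
    | none => X.2 * Dt X.1
    | some p => if p.1 = p.2 then X.1 p.1 p.2 else X.2 * Gz (Z p) X.1
  let D : (Fin d → ℝ) → (E →L[ℝ] ℝ) := fun z =>
    (∑ j, ell z j).comp (ContinuousLinearMap.fst ℝ (Fin d → Fin d → ℝ) ℝ) +
      ContinuousLinearMap.snd ℝ (Fin d → Fin d → ℝ) ℝ
  let D0 : E →L[ℝ] ℝ :=
    (fderiv ℝ (Dt (d := d)) 0).comp (ContinuousLinearMap.fst ℝ (Fin d → Fin d → ℝ) ℝ) +
      ContinuousLinearMap.snd ℝ (Fin d → Fin d → ℝ) ℝ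
  let f' : E →L[ℝ] (Option (Fin d × Fin d) → ℝ) := ContinuousLinearMap.pi fun o =>
    match o with
    | none => D0
    | some p => if p.1 = p.2 then pr p else D (Z p)
  have hD : ∀ z : Fin d → ℝ, HasStrictFDerivAt (fun X : E => X.2 * Gz z X.1) (D z) (0, 1) := by
    intro z
    have h1 : HasStrictFDerivAt (fun X : E => X.2)
        (ContinuousLinearMap.snd ℝ (Fin d → Fin d → ℝ) ℝ) ((0, 1) : E) :=
      (ContinuousLinearMap.snd ℝ (Fin d → Fin d → ℝ) ℝ).hasStrictFDerivAt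
    have h2 : HasStrictFDerivAt (fun X : E => Gz z X.1)
        ((∑ j, ell z j).comp (ContinuousLinearMap.fst ℝ (Fin d → Fin d → ℝ) ℝ)) ((0, 1) : E) :=
      (hasStrictFDerivAt_Gz z).comp ((0, 1) : E)
        (ContinuousLinearMap.fst ℝ (Fin d → Fin d → ℝ) ℝ).hasStrictFDerivAt
    have h3 := h1.mul h2
    have h4 : ((0, 1) : E).2 • ((∑ j, ell z j).comp (ContinuousLinearMap.fst ℝ (Fin d → Fin d → ℝ) ℝ))
        + Gz z ((0, 1) : E).1 • ContinuousLinearMap.snd ℝ (Fin d → Fin d → ℝ) ℝ = D z := by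
      simp only [Gz_zero, one_smul, D]
    rw [h4] at h3
    exact h3
  have hD0 : HasStrictFDerivAt (fun X : E => X.2 * Dt X.1) D0 (0, 1) := by
    have h1 : HasStrictFDerivAt (fun X : E => X.2)
        (ContinuousLinearMap.snd ℝ (Fin d → Fin d → ℝ) ℝ) ((0, 1) : E) :=
      (ContinuousLinearMap.snd ℝ (Fin d → Fin d → ℝ) ℝ).hasStrictFDerivAt
    have h2 : HasStrictFDerivAt (fun X : E => Dt X.1)
        ((fderiv ℝ (Dt (d := d)) 0).comp (ContinuousLinearMap.fst ℝ (Fin d → Fin d → ℝ) ℝ))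
        ((0, 1) : E) := by
      have h0 : HasStrictFDerivAt (Dt (d := d)) (fderiv ℝ (Dt (d := d)) 0) (0 : Fin d → Fin d → ℝ) :=
        contDiff_Dt.hasStrictFDerivAt one_ne_zero
      exact h0.comp ((0, 1) : E)
        (ContinuousLinearMap.fst ℝ (Fin d → Fin d → ℝ) ℝ).hasStrictFDerivAt
    have h3 := h1.mul h2
    have h4 : ((0, 1) : E).2 • ((fderiv ℝ (Dt (d := d)) 0).comp
        (ContinuousLinearMap.fst ℝ (Fin d → Fin d → ℝ) ℝ))
        + Dt ((0, 1) : E).1 • ContinuousLinearMap.snd ℝ (Fin d → Fin d → ℝ) ℝ = D0 := by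
      simp only [Dt_zero, one_smul, D0]
    rw [h4] at h3
    exact h3
  have hf : HasStrictFDerivAt f f' (0, 1) := by
    rw [hasStrictFDerivAt_pi']
    intro o
    cases o with
    | none => exact hD0
    | some p =>
      by_cases hp : p.1 = p.2
      · have h1 : (fun X : E => f X (some p)) = fun X => pr p X := by
          funext X
          simp only [f, if_pos hp]
          rfl
        have h2 : (ContinuousLinearMap.proj (R := ℝ) (φ := fun _ : Option (Fin d × Fin d) => ℝ)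
            (some p)).comp f' = pr p := by
          ext X <;> simp [f', if_pos hp]
        rw [h2]
        exact h1 ▸ (pr p).hasStrictFDerivAt
      · have h1 : (fun X : E => f X (some p)) = fun X => X.2 * Gz (Z p) X.1 := by
          funext X
          simp only [f, if_neg hp]
        have h2 : (ContinuousLinearMap.proj (R := ℝ) (φ := fun _ : Option (Fin d × Fin d) => ℝ)
            (some p)).comp f' = D (Z p) := by
          ext X <;> simp [f', if_neg hp]
        rw [h2]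
        exact h1 ▸ hD (Z p)
  have hf'inj : ∃ C, AntilipschitzWith C f' := by
    obtain ⟨C, -, hC⟩ := (f' : E →ₗ[ℝ] (Option (Fin d × Fin d) → ℝ)).exists_antilipschitzWith (by
      rw [LinearMap.ker_eq_bot']
      intro X hX
      have hXp : ∀ p, f' X p = 0 := fun p => congrFun hX p
      have hDa : ∀ (z : Fin d → ℝ) (Y : E), D z Y = ∑ j, ell z j Y.1 + Y.2 := by
        intro z Y
        change (∑ j, ell z j) Y.1 + Y.2 = _
        rw [_root_.sum_apply]
      have hXd : ∀ i, X.1 i i = 0 := by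
        intro i
        have h1 := hXp (some (i, i))
        simp only [f', ContinuousLinearMap.pi_apply, if_true] at h1
        exact h1
      have hX2 : X.2 = 0 := by
        have h0 : D0 X = 0 := hXp none
        have h1 : D0 X = fderiv ℝ (Dt (d := d)) 0 X.1 + X.2 := rfl
        rw [h1, fderiv_Dt hXd, zero_add] at h0
        exact h0
      have hX1 : X.1 = 0 := by
        refine hinj X.1 hXd (fun p hp => ?_)
        have h1 := hXp (some p)
        simp only [f', ContinuousLinearMap.pi_apply, if_neg hp] at h1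
        rw [hDa, hX2, add_zero] at h1
        rw [h1]
        symm
        refine Finset.sum_eq_zero fun j _ => ?_
        rw [ell_apply]
        simp
      exact Prod.ext hX1 hX2)
    exact ⟨C, hC⟩
  obtain ⟨C, hC⟩ := hf'inj
  obtain ⟨W, hW, hWa⟩ := anti_near hf hC
  -- pull back
  have hu : IsUnit h₀.det := isUnit_iff_ne_zero.2 hdet
  have hqc : Continuous (fun h : Matrix (Fin d) (Fin d) ℝ => h * h₀⁻¹) :=
    continuous_id.matrix_mul continuous_const
  have hq1 : h₀ * h₀⁻¹ = 1 := Matrix.mul_nonsing_inv _ hu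
  have hqent : ∀ j l, Tendsto (fun h : Matrix (Fin d) (Fin d) ℝ => (h * h₀⁻¹) j l) (𝓝 h₀)
      (𝓝 ((1 : Matrix (Fin d) (Fin d) ℝ) j l)) := by
    intro j l
    have h1 := ((continuous_apply_apply j l).comp hqc).tendsto h₀
    have h2 : (h₀ * h₀⁻¹) j l = (1 : Matrix (Fin d) (Fin d) ℝ) j l := by rw [hq1]
    rw [← h2]
    exact h1
  have hpos : ∀ᶠ h in 𝓝 h₀, ∀ j, 1 / 2 < (h * h₀⁻¹) j j ∧ (h * h₀⁻¹) j j < 3 / 2 := by
    refine Filter.eventually_all.2 fun j => ?_
    have h1 := hqent j j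
    rw [Matrix.one_apply_eq] at h1
    exact (h1.eventually (lt_mem_nhds (by norm_num))).and
      (h1.eventually (gt_mem_nhds (by norm_num)))
  have hoff : Tendsto (fun h : Matrix (Fin d) (Fin d) ℝ => offd (h * h₀⁻¹)) (𝓝 h₀) (𝓝 0) := by
    rw [tendsto_pi_nhds]
    intro j
    rw [tendsto_pi_nhds]
    intro l
    by_cases hjl : j = l
    · simp only [offd, if_pos hjl]
      exact tendsto_const_nhds
    · simp only [offd, if_neg hjl]
      have h1 := (hqent j l).div (hqent j j) (by rw [Matrix.one_apply_eq]; exact one_ne_zero)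
      rw [Matrix.one_apply_ne hjl, zero_div] at h1
      exact h1
  have hprod : Tendsto (fun h : Matrix (Fin d) (Fin d) ℝ => ∏ j, (h * h₀⁻¹) j j) (𝓝 h₀) (𝓝 1) := by
    have h1 : Tendsto (fun h : Matrix (Fin d) (Fin d) ℝ => ∏ j, (h * h₀⁻¹) j j) (𝓝 h₀)
        (𝓝 (∏ j : Fin d, (1 : Matrix (Fin d) (Fin d) ℝ) j j)) :=
      tendsto_finsetProd _ fun j _ => hqent j j
    simpa using h1
  have hpair : Tendsto (fun h : Matrix (Fin d) (Fin d) ℝ =>
      ((offd (h * h₀⁻¹), ∏ j, (h * h₀⁻¹) j j) : E)) (𝓝 h₀) (𝓝 ((0, 1) : E)) :=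
    hoff.prodMk_nhds hprod
  have hdp : ∀ᶠ h in 𝓝 h₀, 0 < (h * h₀⁻¹ : Matrix (Fin d) (Fin d) ℝ).det := by
    have h1 : Tendsto (fun h : Matrix (Fin d) (Fin d) ℝ => (h * h₀⁻¹).det) (𝓝 h₀) (𝓝 1) := by
      have h2 := (hqc.matrix_det).tendsto h₀
      rw [hq1, Matrix.det_one] at h2
      exact h2
    exact h1.eventually (lt_mem_nhds one_pos)
  have hinvc : ∀ᶠ h in 𝓝 h₀, ∀ i j, |(h₀ * h⁻¹ : Matrix (Fin d) (Fin d) ℝ) i j| < 2 := by
    refine Filter.eventually_all.2 fun i => Filter.eventually_all.2 fun j => ?_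
    have h1 : Tendsto (fun h : Matrix (Fin d) (Fin d) ℝ => (h₀ * h⁻¹) i j) (𝓝 h₀)
        (𝓝 ((h₀ * h₀⁻¹) i j)) := by
      have h2 : Continuous (fun x : Matrix (Fin d) (Fin d) ℝ => (h₀ * x) i j) :=
        (continuous_apply_apply i j).comp (continuous_const.matrix_mul continuous_id)
      exact (h2.tendsto h₀⁻¹).comp (continuousAt_inv' hdet)
    have h2 := h1.abs
    refine h2.eventually (gt_mem_nhds ?_)
    rw [hq1, Matrix.one_apply]
    split_ifs <;> norm_num
  have huc : ∃ U₁ ∈ 𝓝 h₀, ∀ h ∈ U₁, ∀ h' ∈ U₁, ∀ i,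
      1 / 2 ≤ (h' * h⁻¹ : Matrix (Fin d) (Fin d) ℝ) i i ∧
      (h' * h⁻¹ : Matrix (Fin d) (Fin d) ℝ) i i ≤ 2 := by
    have h1 : Tendsto (fun p : Matrix (Fin d) (Fin d) ℝ × Matrix (Fin d) (Fin d) ℝ => p.2 * p.1⁻¹)
        (𝓝 h₀ ×ˢ 𝓝 h₀) (𝓝 (h₀ * h₀⁻¹)) := by
      have h2 : Tendsto (fun h : Matrix (Fin d) (Fin d) ℝ => h⁻¹) (𝓝 h₀) (𝓝 h₀⁻¹) :=
        continuousAt_inv' hdet
      have h3 : Continuous (fun p : Matrix (Fin d) (Fin d) ℝ × Matrix (Fin d) (Fin d) ℝ =>
          p.2 * p.1) := continuous_snd.matrix_mul continuous_fst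
      have h4 := (h3.tendsto (h₀⁻¹, h₀)).comp ((h2.comp tendsto_fst).prodMk_nhds tendsto_snd)
      exact h4
    have h5 : ∀ᶠ p in 𝓝 h₀ ×ˢ 𝓝 h₀, ∀ i,
        1 / 2 ≤ (p.2 * p.1⁻¹ : Matrix (Fin d) (Fin d) ℝ) i i ∧
        (p.2 * p.1⁻¹ : Matrix (Fin d) (Fin d) ℝ) i i ≤ 2 := by
      refine Filter.eventually_all.2 fun i => ?_
      have h6 := ((continuous_apply_apply i i).tendsto (h₀ * h₀⁻¹)).comp h1
      rw [hq1, Matrix.one_apply_eq] at h6
      refine (h6.eventually (Icc_mem_nhds (a := 1 / 2) (b := 2) (by norm_num) (by norm_num))).mono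
        fun p hp => hp
    obtain ⟨t, ht, hts⟩ := Filter.mem_prod_self_iff.1 h5
    exact ⟨t, ht, fun h hh h' hh' => hts (Set.mk_mem_prod hh hh')⟩
  obtain ⟨U₁, hU₁, hU₁d⟩ := huc
  have hZprod : ∀ p, 0 < |∏ j, Z p j| := fun p =>
    abs_pos.2 (Finset.prod_ne_zero_iff.2 fun j _ => hZne p j)
  set K : ℝ := ∑ p, |∏ j, Z p j|⁻¹ with hK
  have hK0 : 0 ≤ K := Finset.sum_nonneg fun p _ => (inv_pos.2 (hZprod p)).le
  have hKp : ∀ p, |∏ j, Z p j|⁻¹ ≤ K := fun p =>
    Finset.single_le_sum (f := fun p => |∏ j, Z p j|⁻¹)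
      (fun p _ => (inv_pos.2 (hZprod p)).le) (Finset.mem_univ p)
  have hCn : (0 : ℝ) ≤ C := C.coe_nonneg
  have hev := ((((hpair.eventually hW).and hpos).and hdp).and hinvc).and hU₁
  refine ⟨d * (3 / 2 * (2 * C * K) * 2), by positivity, _, hev, ?_⟩
  rintro h ⟨⟨⟨⟨hh1, hh2⟩, hh3⟩, hh4⟩, hh5⟩ h' ⟨⟨⟨⟨hh1', hh2'⟩, hh3'⟩, hh4'⟩, hh5'⟩ hdd η hη heq
  set q : Matrix (Fin d) (Fin d) ℝ := h * h₀⁻¹ with hq
  set q' : Matrix (Fin d) (Fin d) ℝ := h' * h₀⁻¹ with hq'
  have hqh : q * h₀ = h := by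
    rw [hq, Matrix.mul_assoc, Matrix.nonsing_inv_mul _ hu, Matrix.mul_one]
  have hqh' : q' * h₀ = h' := by
    rw [hq', Matrix.mul_assoc, Matrix.nonsing_inv_mul _ hu, Matrix.mul_one]
  have hqj : ∀ j, 0 < q j j := fun j => by have := (hh2 j).1; linarith
  have hqj' : ∀ j, 0 < q' j j := fun j => by have := (hh2' j).1; linarith
  have hDtq : ∀ q : Matrix (Fin d) (Fin d) ℝ, (∀ j, 0 < q j j) →
      (∏ j, q j j) * Dt (offd q) = q.det := by
    intro q hqp
    rw [Dt, ← Matrix.det_diagonal, ← Matrix.det_mul]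
    congr 1
    ext i j
    rw [diagonal_mul, Matrix.of_apply, offd]
    by_cases hij : i = j
    · subst hij
      simp
    · rw [if_neg hij, if_neg hij, zero_add]
      have := (hqp i).ne'
      field_simp
  have hqq : q.det = q'.det := by
    have e1 : |q.det| = |q'.det| := by
      rw [hq, hq', Matrix.det_mul, Matrix.det_mul, abs_mul, abs_mul, hdd]
    rwa [abs_of_pos hh3, abs_of_pos hh3'] at e1
  have hval : ∀ p : Fin d × Fin d, p.1 ≠ p.2 → |(∏ j, q j j) * Gz (Z p) (offd q) -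
      (∏ j, q' j j) * Gz (Z p) (offd q')| ≤ K * η := by
    intro p hp
    have h1 := heq p hp
    have e1 : FF h (iR (m p)) = (∏ i, q i i) * (∏ i, (h₀ *ᵥ iR (m p)) i) *
        Gz (h₀ *ᵥ iR (m p)) (offd q) := by
      rw [← prod_eq_Gz q (fun j => (hqj j).ne') _ (hZne p), ← FF_eq, ← FF_mul, hqh]
    have e2 : FF h' (iR (m p)) = (∏ i, q' i i) * (∏ i, (h₀ *ᵥ iR (m p)) i) *
        Gz (h₀ *ᵥ iR (m p)) (offd q') := by
      rw [← prod_eq_Gz q' (fun j => (hqj' j).ne') _ (hZne p), ← FF_eq, ← FF_mul, hqh']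
    have e3 : FF h (iR (m p)) - FF h' (iR (m p)) = (∏ j, Z p j) *
        ((∏ j, q j j) * Gz (Z p) (offd q) - (∏ j, q' j j) * Gz (Z p) (offd q')) := by
      rw [e1, e2]
      simp only [hZ]
      ring
    rw [e3, abs_mul] at h1
    have h2 : |(∏ j, q j j) * Gz (Z p) (offd q) - (∏ j, q' j j) * Gz (Z p) (offd q')| ≤
        |∏ j, Z p j|⁻¹ * η := by
      rw [inv_mul_eq_div, le_div_iff₀ (hZprod p), mul_comm]
      exact h1
    exact h2.trans (mul_le_mul_of_nonneg_right (hKp p) hη)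
  have hXX : ‖((offd q, ∏ j, q j j) : E) - (offd q', ∏ j, q' j j)‖ ≤ 2 * C * (K * η) := by
    refine (hWa _ hh1 _ hh1').trans (mul_le_mul_of_nonneg_left ?_ (by positivity))
    rw [pi_norm_le_iff_of_nonneg (by positivity)]
    intro o
    rw [Pi.sub_apply, Real.norm_eq_abs]
    cases o with
    | none =>
      change |(∏ j, q j j) * Dt (offd q) - (∏ j, q' j j) * Dt (offd q')| ≤ _
      rw [hDtq q hqj, hDtq q' hqj', hqq, sub_self, abs_zero]
      positivity
    | some p =>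
      simp only [f]
      split_ifs with hp
      · rw [offd, offd, if_pos hp, if_pos hp, sub_self, abs_zero]
        positivity
      · exact hval p hp
  have hX : ∀ i j, |offd q i j - offd q' i j| ≤ 2 * C * (K * η) := by
    intro i j
    have h1 : ‖offd q - offd q'‖ ≤ 2 * C * (K * η) := (norm_fst_le _).trans hXX
    have h2 := (norm_le_pi_norm ((offd q - offd q') i) j).trans
      ((norm_le_pi_norm (offd q - offd q') i).trans h1)
    rwa [Real.norm_eq_abs] at h2
  have hhdet : IsUnit h.det := by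
    refine isUnit_iff_ne_zero.2 fun h0 => ?_
    have : q.det = 0 := by rw [hq, Matrix.det_mul, h0, zero_mul]
    rw [this] at hh3
    exact lt_irrefl _ hh3
  refine ⟨h' * h⁻¹, ?_, fun i j hij => ?_, hU₁d h hh5 h' hh5'⟩
  · rw [Matrix.mul_assoc, Matrix.nonsing_inv_mul _ hhdet, Matrix.mul_one]
  set Er : Matrix (Fin d) (Fin d) ℝ := q' - diagonal (fun j => q' j j / q j j) * q with hEr
  have hErj : ∀ i j, |Er i j| ≤ 3 / 2 * (2 * C * (K * η)) := by
    intro i j
    rw [hEr, Matrix.sub_apply, diagonal_mul]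
    by_cases hij : i = j
    · subst hij
      rw [div_mul_cancel₀ _ (hqj i).ne', sub_self, abs_zero]
      positivity
    · have h1 : q' i j - q' i i / q i i * q i j = -(q' i i * (offd q i j - offd q' i j)) := by
        rw [offd, offd, if_neg hij, if_neg hij]
        have h2 := (hqj i).ne'
        have h3 := (hqj' i).ne'
        field_simp
        ring
      rw [h1, abs_neg, abs_mul, abs_of_pos (hqj' i)]
      exact mul_le_mul (hh2' i).2.le (hX i j) (abs_nonneg _) (by norm_num)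
  have hu2 : h' * h⁻¹ = diagonal (fun j => q' j j / q j j) + Er * (h₀ * h⁻¹) := by
    rw [hEr, Matrix.sub_mul, ← Matrix.mul_assoc q', hqh', Matrix.mul_assoc (diagonal _) q,
      ← Matrix.mul_assoc q, hqh, Matrix.mul_nonsing_inv _ hhdet, Matrix.mul_one]
    abel
  rw [hu2, Matrix.add_apply, diagonal_apply_ne _ hij, zero_add, Matrix.mul_apply]
  refine (Finset.abs_sum_le_sum_abs _ _).trans ?_
  calc ∑ l, |Er i l * (h₀ * h⁻¹ : Matrix (Fin d) (Fin d) ℝ) l j|
      ≤ ∑ l : Fin d, 3 / 2 * (2 * C * (K * η)) * 2 := Finset.sum_le_sum fun l _ => by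
        rw [abs_mul]
        exact mul_le_mul (hErj i l) (hh4 l j).le (abs_nonneg _) (by positivity)
    _ = d * (3 / 2 * (2 * C * K) * 2) * η := by
        rw [Finset.sum_const, Finset.card_univ, Fintype.card_fin, nsmul_eq_mul]
        ring

end Pool.Agent.Zk73.OP
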