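import Mathlib
import Pool.Agent.N759.FV.Pigeon
import Pool.Agent.R750.CV.Dir

/-! # Small values in windows at arbitrary positions -/

set_option autoImplicit false

open Filter Topology Matrix H715R2

namespace Pool.Agent.Zk73.OP

open Pool.Agent.W777.FV Pool.Agent.N759.FV

variable {d : ℕ}

/-- the small values at the integer points whose logarithm vectors are in the windows of size `C`
about the positions `p z` -/
def WV {ι : Type} (g : Matrix (Fin d) (Fin d) ℝ) (p : ι → Fin d → ℝ) (C T : ℝ) : Set ℝ :=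
  {t | ∃ (z : ι) (x : Fin d → ℤ), x ≠ 0 ∧ (∀ k, |Real.log |(g *ᵥ iR x) k| - p z k| ≤ C) ∧
    |FF g (iR x)| = t ∧ t < T}

lemma finite_WV {ι : Type} [Finite ι] {g : Matrix (Fin d) (Fin d) ℝ} (hg : g.det ≠ 0)
    (p : ι → Fin d → ℝ) (C T : ℝ) : (WV g p C T).Finite := by
  classical
  have hu : IsUnit g.det := isUnit_iff_ne_zero.2 hg
  have : Fintype ι := Fintype.ofFinite ι
  set B : ℝ := ∑ z, ∑ k, Real.exp (p z k + C) with hB
  have hBk : ∀ z k, Real.exp (p z k + C) ≤ B := by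
    intro z k
    refine (Finset.single_le_sum (f := fun k => Real.exp (p z k + C))
      (fun _ _ => (Real.exp_pos _).le) (Finset.mem_univ k)).trans ?_
    exact Finset.single_le_sum (f := fun z => ∑ k, Real.exp (p z k + C))
      (fun _ _ => Finset.sum_nonneg fun _ _ => (Real.exp_pos _).le) (Finset.mem_univ z)
  have hB0 : 0 ≤ B := Finset.sum_nonneg fun _ _ => Finset.sum_nonneg fun _ _ =>
    (Real.exp_pos _).le
  obtain ⟨N, hN⟩ := exists_nat_ge (∑ i, ∑ j, |g⁻¹ i j| * B)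
  have hfin := (finite_VN g T N).image fun t : ℝ => |t|
  refine hfin.subset ?_
  rintro t ⟨z, x, hx, hk, ht, htT⟩
  have hbd : ∀ k, |(g *ᵥ iR x) k| ≤ B := by
    intro k
    rcases (abs_nonneg ((g *ᵥ iR x) k)).lt_or_eq with h | h
    · have h1 := (abs_le.1 (hk k)).2
      calc |(g *ᵥ iR x) k| = Real.exp (Real.log |(g *ᵥ iR x) k|) := (Real.exp_log h).symm
        _ ≤ Real.exp (p z k + C) := Real.exp_le_exp.2 (by linarith)
        _ ≤ B := hBk z k
    · rw [← h]
      exact hB0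
  refine ⟨FF g (iR x), ⟨x, hx, fun i => ?_, rfl, by rw [ht]; exact htT⟩, ht⟩
  have h1 : iR x = g⁻¹ *ᵥ (g *ᵥ iR x) := by
    rw [mulVec_mulVec, Matrix.nonsing_inv_mul _ hu, one_mulVec]
  have h2 : ((|x i| : ℤ) : ℝ) ≤ (N : ℝ) := by
    have h3 : ((|x i| : ℤ) : ℝ) = |iR x i| := by
      rw [Int.cast_abs]
      rfl
    rw [h3, h1, mulVec, dotProduct]
    refine (Finset.abs_sum_le_sum_abs _ _).trans (le_trans ?_ hN)
    refine le_trans (Finset.sum_le_sum fun j _ => ?_)
      (Finset.single_le_sum (f := fun i => ∑ j, |g⁻¹ i j| * B) (fun _ _ =>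
        Finset.sum_nonneg fun _ _ => mul_nonneg (abs_nonneg _) hB0) (Finset.mem_univ i))
    rw [abs_mul]
    exact mul_le_mul_of_nonneg_left (hbd j) (abs_nonneg _)
  exact_mod_cast h2

/-- the states: two positions with the same state give an automorph -/
theorem states_win (hd : 2 ≤ d) {V ν T : ℝ} (hV : 0 < V) (hν : 0 < ν)
    (hT : ∀ h : Matrix (Fin d) (Fin d) ℝ, |h.det| = V →
      ∃ m : Fin d → ℤ, m ≠ 0 ∧ |FF h (iR m)| < T) :
    ∃ t₀ : ℕ, ∃ C : ℝ, ∀ g : Matrix (Fin d) (Fin d) ℝ, |g.det| = V → HasNu g ν →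
      ∀ (ι : Type) [Fintype ι] (q : ι → Fin d → ℝ), (∀ z, ∑ i, q z i = 0) →
      ∃ (S : Finset (Matrix (Fin d) (Fin d) ℝ × (OD d → ℝ)))
        (st : ι → Matrix (Fin d) (Fin d) ℝ × (OD d → ℝ)),
        S.card ≤ t₀ * (2 * (WV g q C T).ncard) ^ (d ^ 2 - d) ∧ (∀ z, st z ∈ S) ∧
        ∀ z z' : ι, st z = st z' → ∃ (δ : Matrix (Fin d) (Fin d) ℤ) (b : Fin d → ℝ),
          (∀ i, 1 / 3 < b i ∧ b i < 3) ∧
          g * zR δ = diagonal (fun i => b i * Real.exp (q z' i - q z i)) * g ∧ IsUnit δ.det := by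
  classical
  have hd0 : 0 < d := by omega
  set i₀ : Fin d := ⟨0, hd0⟩ with hi₀
  obtain ⟨R, hR⟩ := exists_bound hd0 V ν hV hν
  obtain ⟨r, hr0, hvec⟩ := exists_vec_gen hd0 V ν T hV hν hT
  set R' : ℝ := max R 0 with hR'
  set 𝒦 : Set (Matrix (Fin d) (Fin d) ℝ) :=
    ({h | ∀ i j, |h i j| ≤ R'} ∩ {h | |h.det| = V}) ∩ {h | HasNu h ν} with h𝒦
  have hcpt : IsCompact 𝒦 := by
    refine ((isCompact_box R').inter_right ?_).inter_right (Pool.Agent.W777.FV.isClosed_hasNu ν)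
    exact isClosed_eq (continuous_abs.comp continuous_det') continuous_const
  have hloc : ∀ h₀ ∈ 𝒦, ∃ m : Fin d × Fin d → (Fin d → ℤ), ∃ W ∈ 𝓝 h₀,
      (∀ p, m p ≠ 0) ∧ (∀ h ∈ W, ∀ p, |FF h (iR (m p))| < T) ∧
      ∀ h ∈ W, ∀ h' ∈ W, |h.det| = |h'.det| →
        (∀ p : Fin d × Fin d, p.1 ≠ p.2 → FF h (iR (m p)) = FF h' (iR (m p))) →
        ∃ a : Fin d → ℝ, (∀ i, 1 / 3 < a i ∧ a i < 3) ∧ h' = diagonal a * h := by
    intro h₀ hh₀
    have hdet : |h₀.det| = V := hh₀.1.2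
    have hdet0 : h₀.det ≠ 0 := by
      intro h0
      rw [h0, abs_zero] at hdet
      exact hV.ne hdet
    obtain ⟨m, hm, U, hU, hUd⟩ := determine3 i₀ (div_pos hν (pow_pos hr0 (d - 1))) hdet0 hr0
      (hvec h₀ hdet hh₀.2)
    have hev : ∀ᶠ h in 𝓝 h₀, ∀ p, |FF h (iR (m p))| < T := by
      refine Filter.eventually_all.2 fun p => ?_
      exact ((continuous_abs.comp (continuous_FF (iR (m p)))).tendsto h₀).eventually
        (gt_mem_nhds (hm p).2)
    refine ⟨m, U ∩ {h | ∀ p, |FF h (iR (m p))| < T}, Filter.inter_mem hU hev,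
      fun p => (hm p).1, fun h hh => hh.2, fun h hh h' hh' => hUd h hh.1 h' hh'.1⟩
  choose! m W hW hm0 hmT hWd using hloc
  obtain ⟨t, ht𝒦, htcov⟩ := hcpt.elim_nhds_subcover W hW
  -- bounds
  set M : ℝ := ∑ x ∈ t, ∑ p, ∑ j, |(m x p j : ℝ)| with hM
  have hM0 : 0 ≤ M := Finset.sum_nonneg fun _ _ => Finset.sum_nonneg fun _ _ =>
    Finset.sum_nonneg fun _ _ => abs_nonneg _
  have hMe : ∀ x ∈ t, ∀ p, ∑ j, |(m x p j : ℝ)| ≤ M := by
    intro x hx p
    refine (Finset.single_le_sum (f := fun p => ∑ j, |(m x p j : ℝ)|)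
      (fun _ _ => Finset.sum_nonneg fun _ _ => abs_nonneg _) (Finset.mem_univ p)).trans ?_
    exact Finset.single_le_sum (f := fun x => ∑ p, ∑ j, |(m x p j : ℝ)|)
      (fun _ _ => Finset.sum_nonneg fun _ _ => Finset.sum_nonneg fun _ _ => abs_nonneg _) hx
  have hR'0 : 0 ≤ R' := le_max_right _ _
  set B : ℝ := R' * M + 1 with hB
  have hB0 : 0 < B := by positivity
  set C : ℝ := |Real.log B| + |Real.log (ν / B ^ (d - 1))| with hC
  refine ⟨t.card, C, ?_⟩
  intro g hgV hnu ι _ q hqsum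
  have hg : g.det ≠ 0 := by
    intro h0
    rw [h0, abs_zero] at hgV
    exact hV.ne hgV
  -- the points of the orbit
  set a : ι → Fin d → ℝ := fun n i => Real.exp (-(q n i)) with ha
  have ha0 : ∀ n i, 0 < a n i := fun n i => Real.exp_pos _
  have ha1 : ∀ n, ∏ i, a n i = 1 := by
    intro n
    simp only [ha]
    rw [← Real.exp_sum, Finset.sum_neg_distrib, hqsum, neg_zero, Real.exp_zero]
  have hxn : ∀ n, ∃ γ : Matrix (Fin d) (Fin d) ℤ, IsUnit γ.det ∧
      diagonal (a n) * g * zR γ ∈ 𝒦 := by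
    intro n
    have h1 : diagonal (a n) * g ∈ Orb g := by
      refine ⟨a n, 1, ha0 n, ha1 n, by simp, ?_⟩
      rw [zR_one, Matrix.mul_one]
    obtain ⟨γ, hγ, hγR⟩ := hR _ ((abs_det_orb h1).trans hgV)
      (hasNu_closure hnu (subset_closure h1))
    have h2 : diagonal (a n) * g * zR γ ∈ Orb g := ⟨a n, γ, ha0 n, ha1 n, hγ, rfl⟩
    exact ⟨γ, hγ, ⟨fun i j => (hγR i j).trans (le_max_left _ _), (abs_det_orb h2).trans hgV⟩,
      hasNu_closure hnu (subset_closure h2)⟩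
  choose γ hγ hγ𝒦 using hxn
  set y : ι → Matrix (Fin d) (Fin d) ℝ := fun n => diagonal (a n) * g * zR (γ n) with hy
  have hxt : ∀ n, ∃ x ∈ t, y n ∈ W x := by
    intro n
    have := htcov (hγ𝒦 n)
    rw [Set.mem_iUnion₂] at this
    obtain ⟨x, hx, hx2⟩ := this
    exact ⟨x, hx, hx2⟩
  choose x hxt hxW using hxt
  have hval : ∀ n p, FF (y n) (iR (m (x n) p)) = FF g (iR (γ n *ᵥ m (x n) p)) :=
    fun n p => FF_orb (ha1 n) g (γ n) _
  have hne : ∀ n p, γ n *ᵥ m (x n) p ≠ 0 := fun n p =>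
    gamma_ne (hγ n) (hm0 _ (ht𝒦 _ (hxt n)) p)
  -- the windows
  have hwin : ∀ n p k, |Real.log |(g *ᵥ iR (γ n *ᵥ m (x n) p)) k| - q n k| ≤ C := by
    intro n p k
    have hup : ∀ k, |(y n *ᵥ iR (m (x n) p)) k| < B := by
      intro k
      rw [mulVec, dotProduct]
      refine (Finset.abs_sum_le_sum_abs _ _).trans_lt ?_
      calc ∑ j, |y n k j * iR (m (x n) p) j| ≤ ∑ j, R' * |(m (x n) p j : ℝ)| :=
            Finset.sum_le_sum fun j _ => by
              rw [abs_mul]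
              exact mul_le_mul_of_nonneg_right ((hγ𝒦 n).1.1 k j) (abs_nonneg _)
        _ = R' * ∑ j, |(m (x n) p j : ℝ)| := (Finset.mul_sum _ _ _).symm
        _ ≤ R' * M := mul_le_mul_of_nonneg_left (hMe _ (hxt n) p) hR'0
        _ < B := by rw [hB]; linarith
    have hlow := lower_bound (fun k => |(y n *ᵥ iR (m (x n) p)) k|) hB0 (fun _ => abs_nonneg _)
      hup (ν := ν) (by
        have h1 := (hγ𝒦 n).2 _ (hm0 _ (ht𝒦 _ (hxt n)) p)
        rwa [FF_eq, Finset.abs_prod] at h1) k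
    have hlow0 : 0 < ν / B ^ (d - 1) := div_pos hν (pow_pos hB0 _)
    have hz : 0 < |(y n *ᵥ iR (m (x n) p)) k| := hlow0.trans_le hlow
    have h1 := Real.log_le_log hz (hup k).le
    have h2 := Real.log_le_log hlow0 hlow
    have h3 : Real.log |(y n *ᵥ iR (m (x n) p)) k| =
        Real.log |(g *ᵥ iR (γ n *ᵥ m (x n) p)) k| - q n k := by
      have h4 : (y n *ᵥ iR (m (x n) p)) k = a n k * (g *ᵥ iR (γ n *ᵥ m (x n) p)) k :=
        R750.CV.orb_entry g (a n) (γ n) _ k
      rw [h4] at hz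
      have h5 : (g *ᵥ iR (γ n *ᵥ m (x n) p)) k ≠ 0 := by
        intro h0
        rw [h0, mul_zero, abs_zero] at hz
        exact lt_irrefl _ hz
      rw [h4, abs_mul, abs_of_pos (ha0 n k), Real.log_mul (ha0 n k).ne' (abs_pos.2 h5).ne']
      simp only [ha]
      rw [Real.log_exp]
      ring
    rw [← h3, hC, abs_le]
    constructor
    · have := neg_abs_le (Real.log (ν / B ^ (d - 1)))
      have := abs_nonneg (Real.log B)
      linarith
    · have := le_abs_self (Real.log B)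
      have := abs_nonneg (Real.log (ν / B ^ (d - 1)))
      linarith
  -- colours
  have hfin := finite_WV hg q C T
  set VF : Finset ℝ := hfin.toFinset ∪ hfin.toFinset.image (fun t => -t) with hVF
  have hVcard : VF.card ≤ 2 * (WV g q C T).ncard := by
    rw [Set.ncard_eq_toFinset_card _ hfin, two_mul]
    exact (Finset.card_union_le _ _).trans (Nat.add_le_add_left Finset.card_image_le _)
  set S : Finset (Matrix (Fin d) (Fin d) ℝ × (OD d → ℝ)) :=
    t ×ˢ Fintype.piFinset (fun _ : OD d => VF) with hS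
  have hScard : S.card ≤ t.card * (2 * (WV g q C T).ncard) ^ (d ^ 2 - d) := by
    rw [hS, Finset.card_product, Fintype.card_piFinset, Finset.prod_const, Finset.card_univ,
      Fintype.card_coe, card_OD]
    exact Nat.mul_le_mul_left _ (Nat.pow_le_pow_left hVcard _)
  refine ⟨S, fun n => (x n, fun p : OD d => FF (y n) (iR (m (x n) p))), hScard,
    fun n => ?_, fun n n' hcol => ?_⟩
  · rw [hS, Finset.mem_product]
    refine ⟨hxt n, ?_⟩
    rw [Fintype.mem_piFinset]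
    intro p
    simp only
    have h1 := hmT _ (ht𝒦 _ (hxt n)) _ (hxW n) p
    have hmem : |FF (y n) (iR (m (x n) p))| ∈ WV g q C T := by
      refine ⟨n, γ n *ᵥ m (x n) p, hne n p, fun k => hwin n p k, ?_, h1⟩
      rw [← hval n p]
    rw [hVF, Finset.mem_union]
    rcases abs_choice (FF (y n) (iR (m (x n) p))) with h | h
    · left
      rw [Set.Finite.mem_toFinset]
      rwa [h] at hmem
    · right
      refine Finset.mem_image.2 ⟨|FF (y n) (iR (m (x n) p))|, ?_, by rw [h, neg_neg]⟩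
      rw [Set.Finite.mem_toFinset]
      exact hmem
  rw [Prod.mk.injEq] at hcol
  obtain ⟨hxx, hcol⟩ := hcol
  obtain ⟨b, hb, hbe⟩ := hWd _ (ht𝒦 _ (hxt n)) (y n) (hxW n) (y n') (by rw [hxx]; exact hxW n')
    (by rw [(hγ𝒦 n).1.2, (hγ𝒦 n').1.2])
    (fun p hp => by
      have h1 := congrFun hcol ⟨p, by rw [OD, Finset.mem_offDiag]; exact ⟨Finset.mem_univ _, Finset.mem_univ _, hp⟩⟩
      simp only at h1
      rw [h1, hxx])
  refine ⟨γ n' * (γ n)⁻¹, b, hb, ?_, ?_⟩
  · have h1 : diagonal (fun i => (a n' i)⁻¹) * diagonal (a n') =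
        (1 : Matrix (Fin d) (Fin d) ℝ) := by
      rw [diagonal_mul_diagonal, ← diagonal_one]
      congr 1
      funext i
      exact inv_mul_cancel₀ (ha0 n' i).ne'
    have h2 : g * zR (γ n') = diagonal (fun i => (a n' i)⁻¹) * (diagonal b * y n) := by
      rw [← hbe]
      simp only [hy]
      rw [Matrix.mul_assoc (diagonal (a n')), ← Matrix.mul_assoc, h1, Matrix.one_mul]
    rw [zR_mul, ← Matrix.mul_assoc, h2]
    simp only [hy]
    have h3 : diagonal (fun i => (a n' i)⁻¹) * (diagonal b * (diagonal (a n) * g * zR (γ n))) *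
        zR (γ n)⁻¹ = (diagonal (fun i => (a n' i)⁻¹) * diagonal b * diagonal (a n)) * g *
          (zR (γ n) * zR (γ n)⁻¹) := by
      simp only [Matrix.mul_assoc]
    rw [h3, zR_inv (hγ n), Matrix.mul_one, diagonal_mul_diagonal, diagonal_mul_diagonal]
    congr 2
    funext i
    simp only [ha]
    rw [← Real.exp_neg, mul_right_comm, ← Real.exp_add, mul_comm]
    congr 2
    ring
  · rw [det_mul]
    refine (hγ n').mul ?_
    rw [Matrix.det_nonsing_inv]
    exact (hγ n).ringInverse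

end Pool.Agent.Zk73.OP
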