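import Mathlib
import Pool.Agent.Zk73.OP.W
import Pool.Agent.Zk73.OP.D4

/-! # Separated small values in windows at arbitrary positions -/

set_option autoImplicit false

open Filter Topology Matrix H715R2

namespace Pool.Agent.Zk73.OP

open Pool.Agent.W777.FV Pool.Agent.N759.FV

variable {d : ℕ}

/-- a maximal separated subset -/
lemma exists_sep {s : Set ℝ} (hs : s.Finite) {η : ℝ} (hη : 0 < η) : ∃ A : Finset ℝ,
    (∀ t ∈ A, t ∈ s) ∧ (∀ t ∈ A, ∀ t' ∈ A, t ≠ t' → η ≤ |t - t'|) ∧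
    ∀ t ∈ s, ∃ t' ∈ A, |t - t'| ≤ η := by
  classical
  set P : Finset (Finset ℝ) := hs.toFinset.powerset.filter
    (fun A => ∀ t ∈ A, ∀ t' ∈ A, t ≠ t' → η ≤ |t - t'|) with hP
  have hne : P.Nonempty := ⟨∅, by simp [hP]⟩
  obtain ⟨A, hA, hmax⟩ := P.exists_max_image (fun A => A.card) hne
  rw [hP, Finset.mem_filter, Finset.mem_powerset] at hA
  refine ⟨A, fun t ht => by simpa using hA.1 ht, hA.2, fun t ht => ?_⟩
  by_contra hcon
  push Not at hcon
  have htA : t ∉ A := fun h => by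
    have := hcon t h
    rw [sub_self, abs_zero] at this
    linarith
  have h1 : insert t A ∈ P := by
    rw [hP, Finset.mem_filter, Finset.mem_powerset]
    refine ⟨Finset.insert_subset (by simpa using ht) hA.1, ?_⟩
    intro a ha b hb hab
    rw [Finset.mem_insert] at ha hb
    rcases ha with ha | ha
    · rcases hb with hb | hb
      · exact absurd (ha.trans hb.symm) hab
      · rw [ha]
        exact (hcon b hb).le
    · rcases hb with hb | hb
      · rw [hb, abs_sub_comm]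
        exact (hcon a ha).le
      · exact hA.2 a ha b hb hab
  have h2 := hmax _ h1
  rw [Finset.card_insert_of_notMem htA] at h2
  omega

/-- the states: two positions with the same state are near to each other -/
theorem states_sep (hd : 2 ≤ d) {V ν T : ℝ} (hV : 0 < V) (hν : 0 < ν)
    (hT : ∀ h : Matrix (Fin d) (Fin d) ℝ, |h.det| = V →
      ∃ m : Fin d → ℤ, m ≠ 0 ∧ |FF h (iR m)| < T) :
    ∃ t₀ : ℕ, ∃ C C₁ : ℝ, 0 ≤ C₁ ∧ ∀ g : Matrix (Fin d) (Fin d) ℝ, |g.det| = V → HasNu g ν →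
      ∀ (ι : Type) [Fintype ι] (q : ι → Fin d → ℝ), (∀ z, ∑ i, q z i = 0) → ∀ η : ℝ, 0 < η →
      ∃ A : Finset ℝ, (∀ t ∈ A, t ∈ WV g q C T) ∧ (∀ t ∈ A, ∀ t' ∈ A, t ≠ t' → η ≤ |t - t'|) ∧
      ∃ (S : Finset (Matrix (Fin d) (Fin d) ℝ × (OD d → ℝ)))
        (st : ι → Matrix (Fin d) (Fin d) ℝ × (OD d → ℝ)),
        S.card ≤ t₀ * (2 * A.card) ^ (d ^ 2 - d) ∧ (∀ z, st z ∈ S) ∧
        ∀ z z' : ι, st z = st z' → ∃ (u : Matrix (Fin d) (Fin d) ℝ) (δ : Matrix (Fin d) (Fin d) ℤ),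
          |δ.det| = 1 ∧ diagonal (fun i => Real.exp (-(q z' i))) * g =
            u * (diagonal (fun i => Real.exp (-(q z i))) * g) * zR δ ∧
          (∀ i j, i ≠ j → |u i j| ≤ C₁ * η) ∧ ∀ i, 1 / 2 ≤ u i i ∧ u i i ≤ 2 := by
  classical
  have hd0 : 0 < d := by omega
  set i₀ : Fin d := ⟨0, hd0⟩ with hi₀
  obtain ⟨R, hR⟩ := exists_bound hd0 V ν hV hν
  obtain ⟨r, hr0, hvec⟩ := exists_vec_gen hd0 V ν T hV hν hT
  set R' : ℝ := max R 0 with hR'
  set 𝒦 : Set (Matrix (Fin d) (Fin d) ℝ) :=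
    ({h | ∀ i j, |h i j| ≤ R'} ∩ {h | |h.det| = V}) ∩ {h | HasNu h ν} with h𝒦
  have hcpt : IsCompact 𝒦 := by
    refine ((isCompact_box R').inter_right ?_).inter_right (Pool.Agent.W777.FV.isClosed_hasNu ν)
    exact isClosed_eq (continuous_abs.comp continuous_det') continuous_const
  have hloc : ∀ h₀ ∈ 𝒦, ∃ m : Fin d × Fin d → (Fin d → ℤ), ∃ K : ℝ, ∃ W ∈ 𝓝 h₀,
      (∀ p, m p ≠ 0) ∧ (∀ h ∈ W, ∀ p, |FF h (iR (m p))| < T) ∧ 0 ≤ K ∧
      ∀ h ∈ W, ∀ h' ∈ W, |h.det| = |h'.det| → ∀ η : ℝ, 0 ≤ η →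
        (∀ p : Fin d × Fin d, p.1 ≠ p.2 → |FF h (iR (m p)) - FF h' (iR (m p))| ≤ η) →
        ∃ u : Matrix (Fin d) (Fin d) ℝ, h' = u * h ∧ (∀ i j, i ≠ j → |u i j| ≤ K * η) ∧
          ∀ i, 1 / 2 ≤ u i i ∧ u i i ≤ 2 := by
    intro h₀ hh₀
    have hdet : |h₀.det| = V := hh₀.1.2
    have hdet0 : h₀.det ≠ 0 := by
      intro h0
      rw [h0, abs_zero] at hdet
      exact hV.ne hdet
    obtain ⟨m, hm, K, hK, U, hU, hUd⟩ := determine4 i₀ (div_pos hν (pow_pos hr0 (d - 1))) hdet0 hr0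
      (hvec h₀ hdet hh₀.2)
    have hev : ∀ᶠ h in 𝓝 h₀, ∀ p, |FF h (iR (m p))| < T := by
      refine Filter.eventually_all.2 fun p => ?_
      exact ((continuous_abs.comp (continuous_FF (iR (m p)))).tendsto h₀).eventually
        (gt_mem_nhds (hm p).2)
    refine ⟨m, K, U ∩ {h | ∀ p, |FF h (iR (m p))| < T}, Filter.inter_mem hU hev,
      fun p => (hm p).1, fun h hh => hh.2, hK, fun h hh h' hh' => hUd h hh.1 h' hh'.1⟩
  choose! m K W hW hm0 hmT hK0 hWd using hloc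
  obtain ⟨t, ht𝒦, htcov⟩ := hcpt.elim_nhds_subcover W hW
  -- bounds
  set M : ℝ := ∑ x ∈ t, ∑ p, ∑ j, |(m x p j : ℝ)| with hM
  have hM0 : 0 ≤ M := Finset.sum_nonneg fun _ _ => Finset.sum_nonneg fun _ _ =>
    Finset.sum_nonneg fun _ _ => abs_nonneg _
  have hMe : ∀ x ∈ t, ∀ p, ∑ j, |(m x p j : ℝ)| ≤ M := by
    intro x hx p
    refine (Finset.single_le_sum (f := fun p => ∑ j, |(m x p j : ℝ)|)
      (fun _ _ => Finset.sum_nonneg fun _ _ => abs_nonneg _) (Finset.mem_univ p)).trans ?_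
    exact Finset.single_le_sum (f := fun x => ∑ p, ∑ j, |(m x p j : ℝ)|)
      (fun _ _ => Finset.sum_nonneg fun _ _ => Finset.sum_nonneg fun _ _ => abs_nonneg _) hx
  have hR'0 : 0 ≤ R' := le_max_right _ _
  set B : ℝ := R' * M + 1 with hB
  have hB0 : 0 < B := by positivity
  set C : ℝ := |Real.log B| + |Real.log (ν / B ^ (d - 1))| with hC
  set K₁ : ℝ := ∑ x ∈ t, K x with hK₁
  have hK₁x : ∀ x ∈ t, K x ≤ K₁ := fun x hx =>
    Finset.single_le_sum (f := fun x => K x) (fun x hx => hK0 x (ht𝒦 x hx)) hx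
  have hK₁0 : 0 ≤ K₁ := Finset.sum_nonneg fun x hx => hK0 x (ht𝒦 x hx)
  refine ⟨t.card, C, 2 * K₁, by positivity, ?_⟩
  intro g hgV hnu ι _ q hqsum η hη
  have hg : g.det ≠ 0 := by
    intro h0
    rw [h0, abs_zero] at hgV
    exact hV.ne hgV
  -- the points of the orbit
  set a : ι → Fin d → ℝ := fun n i => Real.exp (-(q n i)) with ha
  have ha0 : ∀ n i, 0 < a n i := fun n i => Real.exp_pos _
  have ha1 : ∀ n, ∏ i, a n i = 1 := by
    intro n
    simp only [ha]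
    rw [← Real.exp_sum, Finset.sum_neg_distrib, hqsum, neg_zero, Real.exp_zero]
  have hxn : ∀ n, ∃ γ : Matrix (Fin d) (Fin d) ℤ, IsUnit γ.det ∧
      diagonal (a n) * g * zR γ ∈ 𝒦 := by
    intro n
    have h1 : diagonal (a n) * g ∈ Orb g := by
      refine ⟨a n, 1, ha0 n, ha1 n, by simp, ?_⟩
      rw [zR_one, Matrix.mul_one]
    obtain ⟨γ, hγ, hγR⟩ := hR _ ((abs_det_orb h1).trans hgV)
      (hasNu_closure hnu (subset_closure h1))
    have h2 : diagonal (a n) * g * zR γ ∈ Orb g := ⟨a n, γ, ha0 n, ha1 n, hγ, rfl⟩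
    exact ⟨γ, hγ, ⟨fun i j => (hγR i j).trans (le_max_left _ _), (abs_det_orb h2).trans hgV⟩,
      hasNu_closure hnu (subset_closure h2)⟩
  choose γ hγ hγ𝒦 using hxn
  set y : ι → Matrix (Fin d) (Fin d) ℝ := fun n => diagonal (a n) * g * zR (γ n) with hy
  have hxt : ∀ n, ∃ x ∈ t, y n ∈ W x := by
    intro n
    have := htcov (hγ𝒦 n)
    rw [Set.mem_iUnion₂] at this
    obtain ⟨x, hx, hx2⟩ := this
    exact ⟨x, hx, hx2⟩
  choose x hxt hxW using hxt
  have hval : ∀ n p, FF (y n) (iR (m (x n) p)) = FF g (iR (γ n *ᵥ m (x n) p)) :=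
    fun n p => FF_orb (ha1 n) g (γ n) _
  have hne : ∀ n p, γ n *ᵥ m (x n) p ≠ 0 := fun n p =>
    gamma_ne (hγ n) (hm0 _ (ht𝒦 _ (hxt n)) p)
  -- the windows
  have hwin : ∀ n p k, |Real.log |(g *ᵥ iR (γ n *ᵥ m (x n) p)) k| - q n k| ≤ C := by
    intro n p k
    have hup : ∀ k, |(y n *ᵥ iR (m (x n) p)) k| < B := by
      intro k
      rw [mulVec, dotProduct]
      refine (Finset.abs_sum_le_sum_abs _ _).trans_lt ?_
      calc ∑ j, |y n k j * iR (m (x n) p) j| ≤ ∑ j, R' * |(m (x n) p j : ℝ)| :=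
            Finset.sum_le_sum fun j _ => by
              rw [abs_mul]
              exact mul_le_mul_of_nonneg_right ((hγ𝒦 n).1.1 k j) (abs_nonneg _)
        _ = R' * ∑ j, |(m (x n) p j : ℝ)| := (Finset.mul_sum _ _ _).symm
        _ ≤ R' * M := mul_le_mul_of_nonneg_left (hMe _ (hxt n) p) hR'0
        _ < B := by rw [hB]; linarith
    have hlow := lower_bound (fun k => |(y n *ᵥ iR (m (x n) p)) k|) hB0 (fun _ => abs_nonneg _)
      hup (ν := ν) (by
        have h1 := (hγ𝒦 n).2 _ (hm0 _ (ht𝒦 _ (hxt n)) p)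
        rwa [FF_eq, Finset.abs_prod] at h1) k
    have hlow0 : 0 < ν / B ^ (d - 1) := div_pos hν (pow_pos hB0 _)
    have hz : 0 < |(y n *ᵥ iR (m (x n) p)) k| := hlow0.trans_le hlow
    have h1 := Real.log_le_log hz (hup k).le
    have h2 := Real.log_le_log hlow0 hlow
    have h3 : Real.log |(y n *ᵥ iR (m (x n) p)) k| =
        Real.log |(g *ᵥ iR (γ n *ᵥ m (x n) p)) k| - q n k := by
      have h4 : (y n *ᵥ iR (m (x n) p)) k = a n k * (g *ᵥ iR (γ n *ᵥ m (x n) p)) k :=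
        R750.CV.orb_entry g (a n) (γ n) _ k
      rw [h4] at hz
      have h5 : (g *ᵥ iR (γ n *ᵥ m (x n) p)) k ≠ 0 := by
        intro h0
        rw [h0, mul_zero, abs_zero] at hz
        exact lt_irrefl _ hz
      rw [h4, abs_mul, abs_of_pos (ha0 n k), Real.log_mul (ha0 n k).ne' (abs_pos.2 h5).ne']
      simp only [ha]
      rw [Real.log_exp]
      ring
    rw [← h3, hC, abs_le]
    constructor
    · have := neg_abs_le (Real.log (ν / B ^ (d - 1)))
      have := abs_nonneg (Real.log B)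
      linarith
    · have := le_abs_self (Real.log B)
      have := abs_nonneg (Real.log (ν / B ^ (d - 1)))
      linarith
  -- colours
  have hfin := finite_WV hg q C T
  obtain ⟨A, hAs, hAsep, hAnear⟩ := exists_sep hfin hη
  refine ⟨A, hAs, hAsep, ?_⟩
  set VF : Finset ℝ := A ∪ A.image (fun t => -t) with hVF
  have hVcard : VF.card ≤ 2 * A.card := by
    rw [two_mul]
    exact (Finset.card_union_le _ _).trans (Nat.add_le_add_left Finset.card_image_le _)
  have hnear : ∀ n (p : OD d), ∃ v ∈ VF, |FF (y n) (iR (m (x n) p)) - v| ≤ η := by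
    intro n p
    have h1 := hmT _ (ht𝒦 _ (hxt n)) _ (hxW n) p
    have hmem : |FF (y n) (iR (m (x n) p))| ∈ WV g q C T := by
      refine ⟨n, γ n *ᵥ m (x n) p, hne n p, fun k => hwin n p k, ?_, h1⟩
      rw [← hval n p]
    obtain ⟨t', ht', hd'⟩ := hAnear _ hmem
    rcases abs_choice (FF (y n) (iR (m (x n) p))) with h | h
    · exact ⟨t', Finset.mem_union_left _ ht', by rw [h] at hd'; exact hd'⟩
    · refine ⟨-t', Finset.mem_union_right _ (Finset.mem_image.2 ⟨t', ht', rfl⟩), ?_⟩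
      rw [h] at hd'
      rw [← abs_neg]
      convert hd' using 2
      ring
  choose v hvF hvn using hnear
  set S : Finset (Matrix (Fin d) (Fin d) ℝ × (OD d → ℝ)) :=
    t ×ˢ Fintype.piFinset (fun _ : OD d => VF) with hS
  have hScard : S.card ≤ t.card * (2 * A.card) ^ (d ^ 2 - d) := by
    rw [hS, Finset.card_product, Fintype.card_piFinset, Finset.prod_const, Finset.card_univ,
      Fintype.card_coe, card_OD]
    exact Nat.mul_le_mul_left _ (Nat.pow_le_pow_left hVcard _)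
  refine ⟨S, fun n => (x n, fun p : OD d => v n p), hScard,
    fun n => ?_, fun n n' hcol => ?_⟩
  · rw [hS, Finset.mem_product]
    refine ⟨hxt n, ?_⟩
    rw [Fintype.mem_piFinset]
    intro p
    exact hvF n p
  rw [Prod.mk.injEq] at hcol
  obtain ⟨hxx, hcol⟩ := hcol
  obtain ⟨u, hu1, hu2, hu3⟩ := hWd _ (ht𝒦 _ (hxt n)) (y n) (hxW n) (y n') (by rw [hxx]; exact hxW n')
    (by rw [(hγ𝒦 n).1.2, (hγ𝒦 n').1.2]) (2 * η) (by positivity)
    (fun p hp => by
      have h1 := congrFun hcol ⟨p, by rw [OD, Finset.mem_offDiag]; exact ⟨Finset.mem_univ _, Finset.mem_univ _, hp⟩⟩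
      have h2 := hvn n ⟨p, by rw [OD, Finset.mem_offDiag]; exact ⟨Finset.mem_univ _, Finset.mem_univ _, hp⟩⟩
      have h3 := hvn n' ⟨p, by rw [OD, Finset.mem_offDiag]; exact ⟨Finset.mem_univ _, Finset.mem_univ _, hp⟩⟩
      rw [← h1, ← hxx] at h3
      have h4 := abs_le.1 h2
      have h5 := abs_le.1 h3
      rw [abs_le]
      constructor <;> linarith [h4.1, h4.2, h5.1, h5.2])
  refine ⟨u, γ n * (γ n')⁻¹, ?_, ?_, fun i j hij => ?_, hu3⟩
  · rw [det_mul, abs_mul, Int.isUnit_iff_abs_eq.1 (hγ n), one_mul]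
    refine Int.isUnit_iff_abs_eq.1 ?_
    rw [Matrix.det_nonsing_inv]
    exact (hγ n').ringInverse
  · have h1 : diagonal (a n') * g * zR (γ n') = u * (diagonal (a n) * g * zR (γ n)) := hu1
    calc diagonal (fun i => Real.exp (-(q n' i))) * g
        = diagonal (a n') * g * (zR (γ n') * zR (γ n')⁻¹) := by
          rw [zR_inv (hγ n'), Matrix.mul_one]
      _ = (diagonal (a n') * g * zR (γ n')) * zR (γ n')⁻¹ := by rw [Matrix.mul_assoc _ (zR (γ n'))]
      _ = u * (diagonal (a n) * g) * zR (γ n * (γ n')⁻¹) := by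
          rw [h1, zR_mul]
          simp only [Matrix.mul_assoc]
  · refine (hu2 i j hij).trans ?_
    have h1 := hK₁x _ (hxt n)
    nlinarith

end Pool.Agent.Zk73.OP
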