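import Mathlib
import Pool.Agent.Zk73.OP.W4

/-! # Separated small values in boxes without near returns, three forms -/

set_option autoImplicit false

open Filter Topology Matrix H715R2

namespace Pool.Agent.Zk73.OP

open Pool.Agent.W777.FV Pool.Agent.N759.FV

/-- the vector of the logarithms at the position `(x, y)` -/
noncomputable def pos (x y : ℝ) : Fin 3 → ℝ := ![x + y, -x, -y]

lemma sum_pos (x y : ℝ) : ∑ i, pos x y i = 0 := by
  simp [pos, Fin.sum_univ_three]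

lemma abs_pos_sub_le {x y x' y' R : ℝ} (hx : |x - x'| ≤ R) (hy : |y - y'| ≤ R) (k : Fin 3) :
    |pos x y k - pos x' y' k| ≤ 2 * R := by
  have hR : 0 ≤ R := (abs_nonneg _).trans hx
  have h1 := abs_le.1 hx
  have h2 := abs_le.1 hy
  rw [abs_le]
  fin_cases k <;> simp [pos] <;> constructor <;> linarith [h1.1, h1.2, h2.1, h2.2]

/-- near returns in a box -/
def NoRet (g : Matrix (Fin 3) (Fin 3) ℝ) (δ R s t : ℝ) : Prop :=
  ∀ x ∈ Set.Icc s (s + R), ∀ y ∈ Set.Icc t (t + R),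
    ∀ x' ∈ Set.Icc s (s + R), ∀ y' ∈ Set.Icc t (t + R), (1 ≤ |x - x'| ∨ 1 ≤ |y - y'|) →
    ¬ ∃ (u : Matrix (Fin 3) (Fin 3) ℝ) (γ : Matrix (Fin 3) (Fin 3) ℤ), |γ.det| = 1 ∧
      diagonal (fun i => Real.exp (-(pos x' y' i))) * g =
        u * (diagonal (fun i => Real.exp (-(pos x y i))) * g) * zR γ ∧
      (∀ i j, i ≠ j → |u i j| ≤ δ) ∧ ∀ i, 1 / 2 ≤ u i i ∧ u i i ≤ 2

/-- the separated values as a set of integer points -/
lemma points_of_sep {ι : Type} {g : Matrix (Fin 3) (Fin 3) ℝ} {q : ι → Fin 3 → ℝ} {C T η : ℝ}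
    (A : Finset ℝ) (hA : ∀ t ∈ A, t ∈ WV g q C T)
    (hsep : ∀ t ∈ A, ∀ t' ∈ A, t ≠ t' → η ≤ |t - t'|) :
    ∃ X : Finset (Fin 3 → ℤ), X.card = A.card ∧
      (∀ p ∈ X, p ≠ 0 ∧ |FF g (iR p)| < T ∧ ∃ z, ∀ k, |Real.log |(g *ᵥ iR p) k| - q z k| ≤ C) ∧
      ∀ p ∈ X, ∀ p' ∈ X, p ≠ p' → η ≤ |(|FF g (iR p)| - |FF g (iR p')|)| := by
  classical
  have h1 : ∀ t : A, ∃ p : Fin 3 → ℤ, p ≠ 0 ∧ |FF g (iR p)| = (t : ℝ) ∧ (t : ℝ) < T ∧
      ∃ z, ∀ k, |Real.log |(g *ᵥ iR p) k| - q z k| ≤ C := by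
    intro t
    obtain ⟨z, x, hx, hk, ht, htT⟩ := hA t t.2
    exact ⟨x, hx, ht, htT, z, hk⟩
  choose p hp0 hpt hpT hpz using h1
  have hinj : Function.Injective p := by
    intro t t' htt
    have h2 := hpt t
    have h3 := hpt t'
    rw [htt] at h2
    exact Subtype.ext (h2.symm.trans h3)
  refine ⟨Finset.univ.image p, ?_, ?_, ?_⟩
  · rw [Finset.card_image_of_injective _ hinj, Finset.card_univ, Fintype.card_coe]
  · intro x hx
    obtain ⟨t, -, rfl⟩ := Finset.mem_image.1 hx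
    exact ⟨hp0 t, by rw [hpt t]; exact hpT t, hpz t⟩
  · intro x hx x' hx' hne
    obtain ⟨t, -, rfl⟩ := Finset.mem_image.1 hx
    obtain ⟨t', -, rfl⟩ := Finset.mem_image.1 hx'
    rw [hpt t, hpt t']
    exact hsep t t.2 t' t'.2 fun h => hne (by rw [Subtype.ext h])

/-- **Separated values in boxes without near returns.** -/
theorem sep_values {ν T : ℝ} (hν : 0 < ν)
    (hT : ∀ h : Matrix (Fin 3) (Fin 3) ℝ, |h.det| = 1 →
      ∃ m : Fin 3 → ℤ, m ≠ 0 ∧ |FF h (iR m)| < T) {κ₀ : ℝ} (hκ₀ : 0 < κ₀) :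
    ∃ κ C K : ℝ, 0 < κ ∧ 1 ≤ K ∧ ∀ g : Matrix (Fin 3) (Fin 3) ℝ, |g.det| = 1 → HasNu g ν →
      ∀ η : ℝ, 0 < η → η < 1 / 2 → ∀ s t : ℝ,
      (K ^ 2 * η ≤ 1 → NoRet g (K * η) (κ₀ * Real.log (1 / (K * η))) s t) →
      ∃ X : Finset (Fin 3 → ℤ), κ * Real.log (1 / η) ^ ((1 : ℝ) / 3) ≤ X.card ∧
        (∀ p ∈ X, p ≠ 0 ∧ |FF g (iR p)| < T ∧
          ∀ k, |Real.log |(g *ᵥ iR p) k| - pos s t k| ≤ C * Real.log (1 / η)) ∧
        ∀ p ∈ X, ∀ p' ∈ X, p ≠ p' → η ≤ |(|FF g (iR p)| - |FF g (iR p')|)| := by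
  classical
  obtain ⟨t₀, C₀, C₁, hC₁, H⟩ := states_sep (d := 3) (by norm_num) one_pos hν hT
  set K : ℝ := max C₁ 1 with hK
  have hK1 : 1 ≤ K := le_max_right _ _
  have hKC : C₁ ≤ K := le_max_left _ _
  have hK0 : 0 < K := by linarith
  have hlK : 0 ≤ Real.log K := Real.log_nonneg hK1
  set E : ℝ := 64 * (t₀ : ℝ) + 1 with hE
  have hE0 : 0 < E := by positivity
  set a₁ : ℝ := κ₀ ^ 2 / (4 * E) with ha₁
  set a₂ : ℝ := 1 / (2 * Real.log K + 1) ^ 2 with ha₂
  have ha₁0 : 0 < a₁ := by positivity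
  have ha₂0 : 0 < a₂ := by positivity
  set μ : ℝ := min a₁ a₂ with hμ
  have hμ0 : 0 < μ := lt_min ha₁0 ha₂0
  refine ⟨μ ^ ((1 : ℝ) / 6), 2 * |C₀| + 2 * κ₀, K, Real.rpow_pos_of_pos hμ0 _, hK1, ?_⟩
  intro g hg hnu η hη hη2 s t hno
  set l : ℝ := Real.log (1 / η) with hl
  have hl2 : 1 / 2 < l := by
    have h1 : Real.log 2 < Real.log (1 / η) := Real.log_lt_log (by norm_num) (by
      rw [lt_div_iff₀ hη]; linarith)
    have h2 := Real.log_two_gt_d9
    rw [hl]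
    linarith
  have hl0 : 0 < l := by linarith
  -- the conclusion from a bound of the sixth power
  have hfin : ∀ x : ℝ, 0 ≤ x → μ * l ^ 2 ≤ x ^ 6 → μ ^ ((1 : ℝ) / 6) * l ^ ((1 : ℝ) / 3) ≤ x := by
    intro x hx h
    have h1 : (μ ^ ((1 : ℝ) / 6) * l ^ ((1 : ℝ) / 3)) ^ 6 = μ * l ^ 2 := by
      rw [mul_pow, ← Real.rpow_natCast (μ ^ ((1 : ℝ) / 6)), ← Real.rpow_mul hμ0.le,
        ← Real.rpow_natCast (l ^ ((1 : ℝ) / 3)), ← Real.rpow_mul hl0.le]
      norm_num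
    refine le_of_pow_le_pow_left₀ (n := 6) (by norm_num) hx ?_
    rw [h1]
    exact h
  by_cases hcase : K ^ 2 * η ≤ 1
  · -- small `η`
    have hno := hno hcase
    set δ : ℝ := K * η with hδ
    have hδ0 : 0 < δ := by positivity
    have hlδ : Real.log (1 / δ) = l - Real.log K := by
      rw [hl, one_div, one_div, Real.log_inv, Real.log_inv, hδ, Real.log_mul hK0.ne' hη.ne']
      ring
    have hlK2 : 2 * Real.log K ≤ l := by
      have h1 : Real.log (K ^ 2) ≤ Real.log (1 / η) := Real.log_le_log (by positivity) (by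
        rw [le_div_iff₀ hη]; exact hcase)
      rw [Real.log_pow] at h1
      exact_mod_cast h1
    set R : ℝ := κ₀ * Real.log (1 / δ) with hR
    have hR0 : 0 ≤ R := by
      rw [hR, hlδ]
      exact mul_nonneg hκ₀.le (by linarith)
    have hRl : κ₀ / 2 * l ≤ R := by
      rw [hR, hlδ]
      nlinarith
    have hRu : R ≤ κ₀ * l := by
      rw [hR, hlδ]
      nlinarith
    set N : ℕ := ⌊R⌋₊ with hN
    have hNR : (N : ℝ) ≤ R := Nat.floor_le hR0
    have hRN : R ≤ N + 1 := (Nat.lt_floor_add_one R).le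
    obtain ⟨A, hA, hsep, S, st, hS, hst, hret⟩ := H g hg hnu (Fin (N + 1) × Fin (N + 1))
      (fun z => pos (s + (z.1 : ℕ)) (t + (z.2 : ℕ))) (fun z => sum_pos _ _) η hη
    have hz : ∀ a : Fin (N + 1), ((a : ℕ) : ℝ) ≤ R := fun a => by
      have h1 : ((a : ℕ) : ℝ) ≤ N := by exact_mod_cast Nat.lt_succ_iff.1 a.2
      linarith
    have hz0 : ∀ a : Fin (N + 1), (0 : ℝ) ≤ ((a : ℕ) : ℝ) := fun a => Nat.cast_nonneg _
    have hinj : Function.Injective st := by
      intro z z' hzz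
      by_contra hne
      obtain ⟨u, γ, hγ, hu1, hu2, hu3⟩ := hret z z' hzz
      refine hno (s + (z.1 : ℕ)) ⟨by linarith [hz0 z.1], by linarith [hz z.1]⟩
        (t + (z.2 : ℕ)) ⟨by linarith [hz0 z.2], by linarith [hz z.2]⟩
        (s + (z'.1 : ℕ)) ⟨by linarith [hz0 z'.1], by linarith [hz z'.1]⟩
        (t + (z'.2 : ℕ)) ⟨by linarith [hz0 z'.2], by linarith [hz z'.2]⟩ ?_
        ⟨u, γ, hγ, hu1, fun i j hij => (hu2 i j hij).trans ?_, hu3⟩
      · have hint : ∀ a b : Fin (N + 1), a ≠ b → 1 ≤ |(((a : ℕ) : ℝ)) - ((b : ℕ) : ℝ)| := by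
          intro a b hab
          have h1 : ((a : ℕ) : ℤ) - ((b : ℕ) : ℤ) ≠ 0 := by
            intro h0
            exact hab (Fin.ext (by omega))
          have h2 := Int.one_le_abs h1
          have h3 : ((|((a : ℕ) : ℤ) - ((b : ℕ) : ℤ)| : ℤ) : ℝ) = |(((a : ℕ) : ℝ)) - ((b : ℕ) : ℝ)| := by
            push_cast
            rfl
          rw [← h3]
          exact_mod_cast h2
        by_cases h1 : z.1 = z'.1
        · right
          have h2 : z.2 ≠ z'.2 := fun h => hne (Prod.ext h1 h)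
          have := hint _ _ h2
          rwa [add_sub_add_left_eq_sub]
        · left
          have := hint _ _ h1
          rwa [add_sub_add_left_eq_sub]
      · rw [hδ]
        exact mul_le_mul_of_nonneg_right hKC hη.le
    have hcard : (N + 1) * (N + 1) ≤ S.card := by
      have h1 : Fintype.card (Fin (N + 1) × Fin (N + 1)) ≤ S.card := by
        rw [← Finset.card_univ]
        exact Finset.card_le_card_of_injOn st (fun z _ => hst z) (fun z _ z' _ h => hinj h)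
      simpa using h1
    have hSA : (S.card : ℝ) ≤ E * (A.card : ℝ) ^ 6 := by
      have h1 : (S.card : ℝ) ≤ (t₀ : ℝ) * (2 * (A.card : ℝ)) ^ 6 := by
        exact_mod_cast hS
      rw [mul_pow] at h1
      have h2 : (0 : ℝ) ≤ (A.card : ℝ) ^ 6 := by positivity
      rw [hE]
      nlinarith
    obtain ⟨X, hX1, hX2, hX3⟩ := points_of_sep A hA hsep
    refine ⟨X, ?_, fun p hp => ?_, hX3⟩
    · rw [hX1]
      refine hfin _ (Nat.cast_nonneg _) ?_
      have h1 : R ^ 2 ≤ E * (A.card : ℝ) ^ 6 := by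
        have h2 : ((N : ℝ) + 1) * (N + 1) ≤ S.card := by exact_mod_cast hcard
        have h3 : R ^ 2 ≤ ((N : ℝ) + 1) * (N + 1) := by nlinarith
        linarith
      have h2 : (κ₀ / 2 * l) ^ 2 ≤ R ^ 2 := pow_le_pow_left₀ (by positivity) hRl 2
      have h3 : μ * l ^ 2 ≤ a₁ * l ^ 2 :=
        mul_le_mul_of_nonneg_right (min_le_left _ _) (by positivity)
      have h4 : a₁ * l ^ 2 * E = (κ₀ / 2 * l) ^ 2 := by
        rw [ha₁]
        field_simp
        ring
      have h5 : a₁ * l ^ 2 ≤ (A.card : ℝ) ^ 6 := by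
        have h6 : a₁ * l ^ 2 * E ≤ (A.card : ℝ) ^ 6 * E := by
          rw [h4]
          linarith
        exact le_of_mul_le_mul_right h6 hE0
      linarith
    · obtain ⟨h1, h2, z, h3⟩ := hX2 p hp
      refine ⟨h1, h2, fun k => ?_⟩
      have h4 : |pos (s + (z.1 : ℕ)) (t + (z.2 : ℕ)) k - pos s t k| ≤ 2 * R := by
        refine abs_pos_sub_le ?_ ?_ k
        · rw [add_sub_cancel_left, abs_of_nonneg (hz0 _)]
          exact hz _
        · rw [add_sub_cancel_left, abs_of_nonneg (hz0 _)]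
          exact hz _
      have h5 := h3 k
      have h6 := abs_add_le (Real.log |(g *ᵥ iR p) k| - pos (s + (z.1 : ℕ)) (t + (z.2 : ℕ)) k)
        (pos (s + (z.1 : ℕ)) (t + (z.2 : ℕ)) k - pos s t k)
      rw [sub_add_sub_cancel] at h6
      have h7 := le_abs_self C₀
      have h8 := abs_nonneg C₀
      nlinarith
  · -- large `η`
    obtain ⟨A, hA, hsep, S, st, hS, hst, -⟩ := H g hg hnu Unit
      (fun _ => pos s t) (fun z => sum_pos _ _) η hη
    have hA1 : 1 ≤ A.card := by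
      by_contra hcon
      have h0 : A.card = 0 := by omega
      rw [h0, mul_zero] at hS
      have h1 : 0 < S.card := Finset.card_pos.2 ⟨_, hst ()⟩
      simp at hS
      rw [hS] at h1
      simp at h1
    obtain ⟨X, hX1, hX2, hX3⟩ := points_of_sep A hA hsep
    refine ⟨X, ?_, fun p hp => ?_, hX3⟩
    · rw [hX1]
      refine hfin _ (Nat.cast_nonneg _) ?_
      have h1 : l ≤ 2 * Real.log K := by
        push Not at hcase
        have h2 : Real.log (1 / η) ≤ Real.log (K ^ 2) := Real.log_le_log (by positivity) (by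
          rw [div_le_iff₀ hη]; exact hcase.le)
        rw [Real.log_pow] at h2
        exact_mod_cast h2
      have h2 : μ * l ^ 2 ≤ a₂ * (2 * Real.log K + 1) ^ 2 :=
        mul_le_mul (min_le_right _ _) (pow_le_pow_left₀ hl0.le (by linarith) 2) (by positivity)
          ha₂0.le
      have h3 : a₂ * (2 * Real.log K + 1) ^ 2 = 1 := by
        rw [ha₂]
        have : (2 * Real.log K + 1) ^ 2 ≠ 0 := by positivity
        field_simp
      have h4 : (1 : ℝ) ≤ (A.card : ℝ) ^ 6 := one_le_pow₀ (by exact_mod_cast hA1)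
      linarith
    · obtain ⟨h1, h2, z, h3⟩ := hX2 p hp
      refine ⟨h1, h2, fun k => (h3 k).trans ?_⟩
      have h7 := le_abs_self C₀
      have h8 := abs_nonneg C₀
      nlinarith

end Pool.Agent.Zk73.OP
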