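import Mathlib
import Pool.Agent.Zk73.OP.W
import Pool.Agent.Zk73.OP.B

/-! # The number of small values in windows at arbitrary positions -/

set_option autoImplicit false

open Filter Topology Matrix H715R2

namespace Pool.Agent.Zk73.OP

open Pool.Agent.W777.FV Pool.Agent.N759.FV

variable {d : ℕ}

/-- more than `d / q` coordinates differ pairwise by at least `log 9`, `q` the least prime factor
of `d` -/
def Spread (v : Fin d → ℝ) : Prop :=
  ∃ I : Finset (Fin d), d / d.minFac < I.card ∧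
    ∀ i ∈ I, ∀ k ∈ I, i ≠ k → Real.log 9 ≤ |v i - v k|

/-- an automorph with many different eigenvalues gives the algebraic case -/
theorem propInt_of_spread (hd : 3 ≤ d) {g : Matrix (Fin d) (Fin d) ℝ} {ν : ℝ} (hν : 0 < ν)
    (hg : g.det ≠ 0) (hnu : HasNu g ν) {v : Fin d → ℝ} (hv : Spread v)
    {δ : Matrix (Fin d) (Fin d) ℤ} {b : Fin d → ℝ} (hb : ∀ i, 1 / 3 < b i ∧ b i < 3)
    (hδ : g * zR δ = diagonal (fun i => b i * Real.exp (v i)) * g) : PropInt g := by
  classical
  have hd0 : 0 < d := by omega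
  obtain ⟨I, hI, hIs⟩ := hv
  set c : Fin d → ℝ := fun i => b i * Real.exp (v i) with hc
  have hlt : ∀ i k, Real.log 9 ≤ v i - v k → c k < c i := by
    intro i k h
    have h1 : (9 : ℝ) ≤ Real.exp (v i - v k) := by
      rwa [← Real.log_le_iff_le_exp (by norm_num)]
    have h2 : Real.exp (v i) = Real.exp (v k) * Real.exp (v i - v k) := by
      rw [← Real.exp_add]
      congr 1
      ring
    simp only [hc]
    rw [h2]
    have h3 := Real.exp_pos (v k)
    have h4 := (hb i).1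
    have h5 := (hb k).2
    calc b k * Real.exp (v k) < 3 * Real.exp (v k) := mul_lt_mul_of_pos_right h5 h3
      _ ≤ b i * (Real.exp (v k) * Real.exp (v i - v k)) := by
        have h6 : 3 ≤ b i * Real.exp (v i - v k) := by nlinarith
        nlinarith
  have hne : ∀ i ∈ I, ∀ k ∈ I, i ≠ k → c i ≠ c k := by
    intro i hi k hk hik
    rcases le_abs'.1 (hIs i hi k hk hik) with h | h
    · exact (hlt k i (by linarith)).ne
    · exact (hlt i k h).ne'
  obtain ⟨D, hD1, hD2, hD3⟩ := Pool.Agent.N759.FV.automorph_structure hd0 hg hν hnu hδ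
  have hcard : I.card ≤ (Finset.univ.image c).card := by
    rw [← Finset.card_image_of_injOn (s := I) (f := c) (fun i hi k hk h => by
      by_contra hik
      exact hne i hi k hk hik h)]
    exact Finset.card_le_card (Finset.image_subset_image (Finset.subset_univ I))
  have hDd : D = d := by
    by_contra hne
    have h1 := Pool.Agent.Zk73.OP.le_div_minFac hd0 hD1 hne
    omega
  obtain ⟨-, hcinj⟩ := hD3 hDd
  obtain ⟨K, hfin, hK, t, ht, hmem⟩ := exists_alg_row hg δ c hcinj hδ ⟨0, hd0⟩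
  rcases limit_alg hd hg (subset_closure (mem_orb_self g)) ⟨0, hd0⟩ t ht K hK hmem with
    ⟨x, hx, hx0⟩ | hint | hdense
  · exfalso
    have h1 := hnu x hx
    have h2 : FF g (iR x) = 0 := by
      rw [FF]
      exact Finset.prod_eq_zero (Finset.mem_univ ⟨0, hd0⟩) hx0
    rw [h2, abs_zero] at h1
    exact absurd h1 (not_le.2 hν)
  · exact hint
  · exfalso
    obtain ⟨x, hx, hx2⟩ := dense_ne hd0 hdense 0 ν hν
    rw [sub_zero] at hx2
    exact absurd (hnu x hx) (not_le.2 hx2)

/-- **Small values in windows at arbitrary positions.** -/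
theorem windows (hd : 3 ≤ d) {V ν T : ℝ} (hV : 0 < V) (hν : 0 < ν)
    (hT : ∀ h : Matrix (Fin d) (Fin d) ℝ, |h.det| = V →
      ∃ m : Fin d → ℤ, m ≠ 0 ∧ |FF h (iR m)| < T) :
    ∃ κ C : ℝ, 0 < κ ∧ ∀ g : Matrix (Fin d) (Fin d) ℝ, |g.det| = V → HasNu g ν →
      ∀ (ι : Type) [Fintype ι] [Nonempty ι] (q : ι → Fin d → ℝ), (∀ z, ∑ i, q z i = 0) →
      (∃ (Z : Finset ι) (z₀ : ι), κ * Fintype.card ι ≤
        Z.card * ((WV g q C T).ncard : ℝ) ^ (d ^ 2 - d) ∧
        ∀ z ∈ Z, ∃ (δ : Matrix (Fin d) (Fin d) ℤ) (b : Fin d → ℝ),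
          (∀ i, 1 / 3 < b i ∧ b i < 3) ∧
          g * zR δ = diagonal (fun i => b i * Real.exp (q z₀ i - q z i)) * g ∧ IsUnit δ.det) ∧
      (¬ PropInt g → (∀ z z', z ≠ z' → Spread (q z - q z')) →
        κ * Fintype.card ι ≤ ((WV g q C T).ncard : ℝ) ^ (d ^ 2 - d)) := by
  classical
  obtain ⟨t₀, C, H⟩ := states_win (by omega : 2 ≤ d) hV hν hT
  set E : ℝ := (t₀ : ℝ) * 2 ^ (d ^ 2 - d) + 1 with hE
  have hE0 : 0 < E := by positivity
  refine ⟨1 / E, C, by positivity, fun g hgV hnu ι _ _ q hq => ?_⟩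
  obtain ⟨S, st, hS, hst, haut⟩ := H g hgV hnu ι q hq
  have hg : g.det ≠ 0 := by
    intro h0
    rw [h0, abs_zero] at hgV
    exact hV.ne hgV
  set w : ℝ := ((WV g q C T).ncard : ℝ) with hw
  have hw0 : 0 ≤ w := Nat.cast_nonneg _
  have hSR : (S.card : ℝ) ≤ E * w ^ (d ^ 2 - d) := by
    have h1 : (S.card : ℝ) ≤ (t₀ : ℝ) * (2 * w) ^ (d ^ 2 - d) := by
      rw [hw]
      exact_mod_cast hS
    rw [mul_pow, ← mul_assoc] at h1
    refine h1.trans (mul_le_mul_of_nonneg_right ?_ (pow_nonneg hw0 _))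
    rw [hE]
    linarith
  obtain ⟨w₀⟩ := ‹Nonempty ι›
  have hSne : S.Nonempty := ⟨st w₀, hst w₀⟩
  have hS0 : (0 : ℝ) < S.card := by exact_mod_cast hSne.card_pos
  constructor
  · obtain ⟨s, hs, hfib⟩ := Finset.exists_le_card_fiber_of_nsmul_le_card_of_maps_to
      (s := (Finset.univ : Finset ι)) (t := S) (f := st) (b := (Fintype.card ι : ℝ) / S.card)
      (fun z _ => hst z) hSne (by
        rw [nsmul_eq_mul, mul_div_cancel₀ _ hS0.ne', Finset.card_univ])
    have hι : (0 : ℝ) < Fintype.card ι := by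
      exact_mod_cast Fintype.card_pos_iff.2 ⟨w₀⟩
    have hpos : (0 : ℝ) < ((Finset.univ.filter fun x => st x = s).card : ℕ) :=
      lt_of_lt_of_le (div_pos hι hS0) hfib
    obtain ⟨z₀, hz₀⟩ := Finset.card_pos.1 (by exact_mod_cast hpos)
    refine ⟨Finset.univ.filter fun x => st x = s, z₀, ?_, fun z hz => ?_⟩
    · rw [div_le_iff₀ hS0] at hfib
      rw [one_div, inv_mul_le_iff₀ hE0]
      calc (Fintype.card ι : ℝ) ≤ ((Finset.univ.filter fun x => st x = s).card : ℝ) * S.card :=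
            hfib
        _ ≤ ((Finset.univ.filter fun x => st x = s).card : ℝ) * (E * w ^ (d ^ 2 - d)) :=
            mul_le_mul_of_nonneg_left hSR (Nat.cast_nonneg _)
        _ = _ := by ring
    · exact haut z z₀ (by rw [(Finset.mem_filter.1 hz).2, (Finset.mem_filter.1 hz₀).2])
  · intro hP hsp
    have hinj : Function.Injective st := by
      intro z z' hzz
      by_contra hne
      obtain ⟨δ, b, hb, hδ, -⟩ := haut z z' hzz
      exact hP (propInt_of_spread hd hν hg hnu (hsp z' z (Ne.symm hne)) hb hδ)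
    have h1 : (Fintype.card ι : ℝ) ≤ S.card := by
      exact_mod_cast (Finset.card_univ (α := ι)) ▸
        Finset.card_le_card_of_injOn st (fun z _ => hst z) (fun z _ z' _ h => hinj h)
    rw [one_div, inv_mul_le_iff₀ hE0]
    exact h1.trans hSR

end Pool.Agent.Zk73.OP
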