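import Mathlib
import Pool.Agent.Zk73.OP.X
import Pool.Agent.N759.UC.Values
import Pool.Agent.N759.UC.Finite

/-! # Separated small values in windows, uniformly outside finitely many classes -/

set_option autoImplicit false

open Filter Topology Matrix H715R2

namespace Pool.Agent.Zk73.OP

open Pool.Agent.N759.UC

variable {d : ℕ}

/-- `K` separated values in the windows -/
def ManyW {ι : Type} (g : Matrix (Fin d) (Fin d) ℝ) (q : ι → Fin d → ℝ) (K : ℕ) (C T ε : ℝ) :
    Prop :=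
  ∃ x : Fin K → Fin d → ℤ, (∀ j, x j ≠ 0) ∧
    (∀ j, ∃ z : ι, ∀ k, |Real.log |(g *ᵥ iR (x j)) k| - q z k| ≤ C) ∧
    (∀ j, |FF g (iR (x j))| ≤ T - ε) ∧
    ∀ j j', j ≠ j' → ε ≤ abs (abs (FF g (iR (x j))) - abs (FF g (iR (x j'))))

lemma isClosed_spread : IsClosed {v : Fin d → ℝ | Spread v} := by
  classical
  have h1 : {v : Fin d → ℝ | Spread v} = ⋃ I ∈ (Finset.univ : Finset (Finset (Fin d))).filter
      (fun I => d / d.minFac < I.card), ⋂ i : Fin d, ⋂ k : Fin d,
        {v : Fin d → ℝ | i ∈ I → k ∈ I → i ≠ k → Real.log 9 ≤ |v i - v k|} := by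
    ext v
    simp only [Set.mem_ofPred_eq, Set.mem_iUnion, Set.mem_iInter, Finset.mem_filter,
      Finset.mem_univ, true_and, exists_prop]
    constructor
    · rintro ⟨I, hI, h⟩
      exact ⟨I, hI, fun i k hi hk hik => h i hi k hk hik⟩
    · rintro ⟨I, hI, h⟩
      exact ⟨I, hI, fun i hi k hk hik => h i k hi hk hik⟩
  rw [h1]
  refine isClosed_biUnion_finset fun I _ => isClosed_iInter fun i => isClosed_iInter fun k => ?_
  by_cases h : i ∈ I ∧ k ∈ I ∧ i ≠ k
  · have h2 : {v : Fin d → ℝ | i ∈ I → k ∈ I → i ≠ k → Real.log 9 ≤ |v i - v k|} =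
        {v | Real.log 9 ≤ |v i - v k|} := by
      ext v
      exact ⟨fun h3 => h3 h.1 h.2.1 h.2.2, fun h3 _ _ _ => h3⟩
    rw [h2]
    exact isClosed_le continuous_const
      (((continuous_apply i).sub (continuous_apply k)).abs)
  · have h2 : {v : Fin d → ℝ | i ∈ I → k ∈ I → i ≠ k → Real.log 9 ≤ |v i - v k|} = Set.univ := by
      ext v
      simp only [Set.mem_ofPred_eq, Set.mem_univ, iff_true]
      exact fun h3 h4 h5 => absurd ⟨h3, h4, h5⟩ h
    rw [h2]
    exact isClosed_univ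

/-- **Sequences of systems with few separated values in the windows.** -/
theorem classes_seq (hd : 3 ≤ d) {V ν T κ C : ℝ} (hV : 0 < V) (hν : 0 < ν)
    (H : ∀ g : Matrix (Fin d) (Fin d) ℝ, |g.det| = V → HasNu g ν →
      ∀ (ι : Type) [Fintype ι] [Nonempty ι] (q : ι → Fin d → ℝ), (∀ z, ∑ i, q z i = 0) →
      ¬ PropInt g → (∀ z z', z ≠ z' → Spread (q z - q z')) →
        κ * Fintype.card ι ≤ ((WV g q C T).ncard : ℝ) ^ (d ^ 2 - d))
    (K M : ℕ) (hM : 0 < M) (hKM : (K : ℝ) ^ (d ^ 2 - d) ≤ κ * M) (ρ : ℝ)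
    (g : ℕ → Matrix (Fin d) (Fin d) ℝ) (hg : ∀ n, |(g n).det| = V) (hnu : ∀ n, HasNu (g n) ν)
    (N : ℕ → ℕ) (hN : ∀ n, n ≤ N n) (q : ℕ → Fin M → Fin d → ℝ)
    (hq0 : ∀ n z, ∑ k, q n z k = 0) (hqρ : ∀ n z z' k, |q n z k - q n z' k| ≤ ρ)
    (hqs : ∀ n z z', z ≠ z' → Spread (q n z - q n z'))
    (hfew : ∀ n, ¬ ManyW (g n) (q n) K (C + 1) T (1 / ((N n : ℝ) + 1))) :
    ∃ s : ℕ → ℕ, (∀ i, i ≤ s i) ∧ (∀ i, PropInt (g (s i))) ∧ ∀ i j, Eqv (g (s i)) (g (s j)) := by
  classical
  have hd0 : 0 < d := by omega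
  obtain ⟨R, hR⟩ := exists_bound hd0 V ν hV hν
  set z₀ : Fin M := ⟨0, hM⟩ with hz₀
  set a : ℕ → Fin d → ℝ := fun n k => Real.exp (-(q n z₀ k)) with ha
  have ha0 : ∀ n k, 0 < a n k := fun n k => Real.exp_pos _
  have ha1 : ∀ n, ∏ k, a n k = 1 := by
    intro n
    simp only [ha]
    rw [← Real.exp_sum, Finset.sum_neg_distrib, hq0, neg_zero, Real.exp_zero]
  have hex : ∀ n, ∃ γ : Matrix (Fin d) (Fin d) ℤ, IsUnit γ.det ∧
      ∀ i j, |(diagonal (a n) * g n * zR γ) i j| ≤ R := by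
    intro n
    refine hR (diagonal (a n) * g n) (by
      rw [Matrix.det_mul, Matrix.det_diagonal, ha1, one_mul]; exact hg n) fun x hx => ?_
    rw [FF_diag_mul, ha1, one_mul]
    exact hnu n x hx
  choose γ hγ hγR using hex
  -- convergence of the systems and of the positions
  have hcpt2 : IsCompact (Set.univ.pi fun _ : Fin M => Set.univ.pi fun _ : Fin d =>
      Set.Icc (-ρ) ρ : Set (Fin M → Fin d → ℝ)) :=
    isCompact_univ_pi fun _ => isCompact_univ_pi fun _ => isCompact_Icc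
  obtain ⟨⟨h, u⟩, -, φ, hφ, hlim⟩ := ((isCompact_box (d := d) R).prod hcpt2).tendsto_subseq
    (x := fun n => (diagonal (a n) * g n * zR (γ n), fun z k => q n z k - q n z₀ k))
    (fun n => ⟨hγR n, fun z _ k _ => by
      have h1 := hqρ n z z₀ k
      exact abs_le.1 h1⟩)
  have hlim1 : Tendsto (fun n => diagonal (a (φ n)) * g (φ n) * zR (γ (φ n))) atTop (𝓝 h) :=
    (continuous_fst.tendsto _).comp hlim
  have hlim2 : ∀ z k, Tendsto (fun n => q (φ n) z k - q (φ n) z₀ k) atTop (𝓝 (u z k)) := by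
    intro z k
    have h1 : Tendsto (fun n => fun z k => q (φ n) z k - q (φ n) z₀ k) atTop (𝓝 u) :=
      (continuous_snd.tendsto _).comp hlim
    exact ((continuous_apply k).comp (continuous_apply z)).tendsto u |>.comp h1
  have horb : ∀ n, diagonal (a n) * g n * zR (γ n) ∈ Orb (g n) :=
    fun n => ⟨a n, γ n, ha0 n, ha1 n, hγ n, rfl⟩
  have hnuh : HasNu h ν := hasNu_tendsto (fun n => hasNu_orb (hnu _) (horb (φ n))) hlim1
  have hdeth : |h.det| = V := by
    have h1 := ((continuous_det'.tendsto h).comp hlim1).abs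
    refine (tendsto_nhds_unique (h1.congr fun n => ?_) tendsto_const_nhds)
    show |(diagonal (a (φ n)) * g (φ n) * zR (γ (φ n))).det| = V
    rw [abs_det_orb (horb _), hg]
  have hdet : h.det ≠ 0 := by
    intro h0
    rw [h0, abs_zero] at hdeth
    exact hV.ne hdeth
  have hu0 : ∀ z, ∑ k, u z k = 0 := by
    intro z
    have h1 : Tendsto (fun n => ∑ k, (q (φ n) z k - q (φ n) z₀ k)) atTop (𝓝 (∑ k, u z k)) :=
      tendsto_finsetSum _ fun k _ => hlim2 z k
    refine tendsto_nhds_unique h1 (tendsto_const_nhds.congr fun n => ?_)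
    rw [Finset.sum_sub_distrib, hq0, hq0, sub_zero]
  have hus : ∀ z z', z ≠ z' → Spread (u z - u z') := by
    intro z z' hzz
    have h1 : Tendsto (fun n => q (φ n) z - q (φ n) z') atTop (𝓝 (u z - u z')) := by
      rw [tendsto_pi_nhds]
      intro k
      refine ((hlim2 z k).sub (hlim2 z' k)).congr fun n => ?_
      simp only [Pi.sub_apply]
      ring
    exact isClosed_spread.mem_of_tendsto h1 (Eventually.of_forall fun n => hqs _ z z' hzz)
  have hP : PropInt h := by
    by_contra hP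
    have : Nonempty (Fin M) := ⟨z₀⟩
    have hcard := H h hdeth hnuh (Fin M) u hu0 hP hus
    rw [Fintype.card_fin] at hcard
    have hKw : K ≤ (WV h u C T).ncard := by
      have h1 : (K : ℝ) ^ (d ^ 2 - d) ≤ ((WV h u C T).ncard : ℝ) ^ (d ^ 2 - d) :=
        hKM.trans hcard
      have h2 : K ^ (d ^ 2 - d) ≤ (WV h u C T).ncard ^ (d ^ 2 - d) := by exact_mod_cast h1
      have h3 : d ^ 2 - d ≠ 0 := by
        have : d * 3 ≤ d ^ 2 := by nlinarith
        omega
      exact (Nat.pow_le_pow_iff_left h3).1 h2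
    have hfin := finite_WV (d := d) hdet u C T
    obtain ⟨E, hE, hEc⟩ := Finset.exists_subset_card_eq (s := hfin.toFinset) (n := K) (by
      rwa [← Set.ncard_eq_toFinset_card _ hfin])
    have e : Fin K ≃ E := (Fintype.equivFinOfCardEq (by rw [Fintype.card_coe, hEc])).symm
    have hmem : ∀ j : Fin K, ∃ (z : Fin M) (x : Fin d → ℤ), x ≠ 0 ∧
        (∀ k, |Real.log |(h *ᵥ iR x) k| - u z k| ≤ C) ∧ |FF h (iR x)| = (e j : ℝ) ∧
        (e j : ℝ) < T := fun j => by
      have h1 := hE (e j).2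
      rw [Set.Finite.mem_toFinset] at h1
      exact h1
    choose zz x hx0 hxw hxv hxT using hmem
    -- convergence of the values
    have hconv : ∀ j, Tendsto (fun n => |FF (diagonal (a (φ n)) * g (φ n) * zR (γ (φ n)))
        (iR (x j))|) atTop (𝓝 (e j : ℝ)) := by
      intro j
      rw [← hxv j]
      exact (((continuous_FF (iR (x j))).tendsto h).comp hlim1).abs
    have hNlim : Tendsto (fun n => (N (φ n) : ℝ)) atTop atTop := by
      refine tendsto_natCast_atTop_atTop.comp (tendsto_atTop_mono (fun n => ?_) tendsto_id)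
      exact (hφ.id_le n).trans (hN (φ n))
    have hεlim : Tendsto (fun n => 1 / ((N (φ n) : ℝ) + 1)) atTop (𝓝 0) := by
      have h1 := tendsto_atTop_add_const_right atTop (1 : ℝ) hNlim
      simp only [one_div]
      exact h1.inv_tendsto_atTop
    have hev1 : ∀ᶠ n in atTop, ∀ j, |FF (diagonal (a (φ n)) * g (φ n) * zR (γ (φ n)))
        (iR (x j))| ≤ T - 1 / ((N (φ n) : ℝ) + 1) := by
      refine Filter.eventually_all.2 fun j => ?_
      have h1 : Tendsto (fun n => T - 1 / ((N (φ n) : ℝ) + 1)) atTop (𝓝 (T - 0)) :=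
        tendsto_const_nhds.sub hεlim
      rw [sub_zero] at h1
      exact ((hconv j).eventually_lt h1 (hxT j)).mono fun n hn => hn.le
    have hev2 : ∀ᶠ n in atTop, ∀ j j', j ≠ j' → 1 / ((N (φ n) : ℝ) + 1) ≤
        abs (abs (FF (diagonal (a (φ n)) * g (φ n) * zR (γ (φ n))) (iR (x j))) -
          abs (FF (diagonal (a (φ n)) * g (φ n) * zR (γ (φ n))) (iR (x j')))) := by
      refine Filter.eventually_all.2 fun j => Filter.eventually_all.2 fun j' => ?_
      by_cases hjj : j = j'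
      · exact Eventually.of_forall fun n h => absurd hjj h
      · have h1 := ((hconv j).sub (hconv j')).abs
        have h2 : (0 : ℝ) < |(e j : ℝ) - (e j' : ℝ)| := by
          rw [abs_pos, sub_ne_zero]
          intro h0
          exact hjj (e.injective (Subtype.ext h0))
        exact (hεlim.eventually_lt h1 h2).mono fun n hn _ => hn.le
    have hpos : ∀ j k, 0 < |(h *ᵥ iR (x j)) k| := by
      intro j k
      rw [abs_pos]
      intro h0
      have h1 := hnuh (x j) (hx0 j)
      rw [FF_eq, Finset.prod_eq_zero (Finset.mem_univ k) h0, abs_zero] at h1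
      exact absurd h1 (not_le.2 hν)
    have hev3 : ∀ᶠ n in atTop, ∀ j k,
        |Real.log |((diagonal (a (φ n)) * g (φ n) * zR (γ (φ n))) *ᵥ iR (x j)) k| -
          (q (φ n) (zz j) k - q (φ n) z₀ k)| < C + 1 := by
      refine Filter.eventually_all.2 fun j => Filter.eventually_all.2 fun k => ?_
      have h1 : Tendsto (fun n => |((diagonal (a (φ n)) * g (φ n) * zR (γ (φ n))) *ᵥ
          iR (x j)) k|) atTop (𝓝 |(h *ᵥ iR (x j)) k|) :=
        (((R750.CV.cont_entry (x j) k).tendsto h).comp hlim1).abs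
      have h2 := (((Real.continuousAt_log (hpos j k).ne').tendsto.comp h1).sub
        (hlim2 (zz j) k)).abs
      exact h2.eventually (gt_mem_nhds ((hxw j k).trans_lt (lt_add_one _)))
    have hev4 : ∀ᶠ n in atTop, ∀ j k,
        0 < |((diagonal (a (φ n)) * g (φ n) * zR (γ (φ n))) *ᵥ iR (x j)) k| := by
      refine Filter.eventually_all.2 fun j => Filter.eventually_all.2 fun k => ?_
      have h1 : Tendsto (fun n => |((diagonal (a (φ n)) * g (φ n) * zR (γ (φ n))) *ᵥ
          iR (x j)) k|) atTop (𝓝 |(h *ᵥ iR (x j)) k|) :=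
        (((R750.CV.cont_entry (x j) k).tendsto h).comp hlim1).abs
      exact h1.eventually (lt_mem_nhds (hpos j k))
    obtain ⟨n, hn1, hn2, hn3, hn4⟩ := (hev1.and (hev2.and (hev3.and hev4))).exists
    apply hfew (φ n)
    have hFF : ∀ j, FF (diagonal (a (φ n)) * g (φ n) * zR (γ (φ n))) (iR (x j)) =
        FF (g (φ n)) (iR (γ (φ n) *ᵥ x j)) := fun j => FF_orb (ha1 _) _ _ _
    refine ⟨fun j => γ (φ n) *ᵥ x j, fun j => gamma_ne (hγ _) (hx0 j), fun j => ⟨zz j, fun k => ?_⟩,
      fun j => ?_, fun j j' hjj => ?_⟩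
    · have h1 := hn3 j k
      have h2 := hn4 j k
      rw [R750.CV.orb_entry] at h1 h2
      have h5 : (g (φ n) *ᵥ iR (γ (φ n) *ᵥ x j)) k ≠ 0 := by
        intro h0
        rw [h0, mul_zero, abs_zero] at h2
        exact lt_irrefl _ h2
      rw [abs_mul, abs_of_pos (ha0 _ k), Real.log_mul (ha0 _ k).ne' (abs_pos.2 h5).ne'] at h1
      simp only [ha] at h1
      rw [Real.log_exp] at h1
      have e1 : Real.log |(g (φ n) *ᵥ iR (γ (φ n) *ᵥ x j)) k| - q (φ n) (zz j) k =
          -(q (φ n) z₀ k) + Real.log |(g (φ n) *ᵥ iR (γ (φ n) *ᵥ x j)) k| -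
            (q (φ n) (zz j) k - q (φ n) z₀ k) := by ring
      rw [e1]
      exact h1.le
    · rw [← hFF]; exact hn1 j
    · rw [← hFF, ← hFF]; exact hn2 j j' hjj
  exact iso_of_limit hV hν g hg hnu φ (fun i => hφ.id_le i)
    (fun i => diagonal (a (φ i)) * g (φ i) * zR (γ (φ i))) (fun i => horb _) hlim1
    (exists_alg_of_propInt hd hdet hν hnuh hP)

end Pool.Agent.Zk73.OP
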